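import Mathlib

set_option autoImplicit false
open MeasureTheory Set Filter Topology BoundedContinuousFunction Complex

namespace Pool.Agent.H.MP_2d1ae5_an

lemma exp_app {K : Type} [TopologicalSpace K] [CompactSpace K] (f : C(K, ℂ)) (x : K) :
    (NormedSpace.exp f) x = cexp (f x) := by
  rw [Complex.exp_eq_exp_ℂ]
  exact NormedSpace.map_exp ((Pi.evalRingHom (fun _ : K => ℂ) x).comp ContinuousMap.coeFnRingHom)
    (continuous_eval_const x) f

noncomputable def wt (a : ℝ →ᵇ ℂ) (x τ : ℝ) : ℂ :=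
  ∫ s : ℝ, (s * a s * (Real.exp (-s ^ 2) : ℝ)) * cexp (I * (s * x : ℝ) + (-(τ * s ^ 2) : ℝ))

theorem runge {τ0 : ℝ} (h1 : τ0 < 1) (M : ℕ) {ε : ℝ} (hε : 0 < ε) :
    ∃ a : ℝ →ᵇ ℂ, (∀ x ∈ Icc (-1 : ℝ) 1, ∀ τ ∈ Icc 0 τ0, ‖wt a x τ‖ ≤ ε) ∧
      ∀ x ∈ Icc (-1 : ℝ) 1, ‖wt a x 1 - (Real.cos x ^ M : ℝ)‖ ≤ ε := by
  let K : Set (ℝ × ℝ) := Icc (-1 : ℝ) 1 ×ˢ (Icc 0 τ0 ∪ {1})
  have hK : IsCompact K := isCompact_Icc.prod (isCompact_Icc.union isCompact_singleton)
  have : CompactSpace K := isCompact_iff_compactSpace.1 hK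
  let X : C(K, ℂ) := ⟨fun p => (p.1.1 : ℂ), by fun_prop⟩
  let Θ : C(K, ℂ) := ⟨fun p => ((1 - p.1.2 : ℝ) : ℂ), by fun_prop⟩
  let χ : C(K, ℂ) := ⟨fun p => ((max 0 ((p.1.2 - τ0) / (1 - τ0)) : ℝ) : ℂ), by fun_prop⟩
  have hd : 0 < 1 - τ0 := by linarith
  have hχ : ∀ p : K, (p.1.2 ∈ Icc 0 τ0 ∧ χ p = 0) ∨ (p.1.2 = 1 ∧ χ p = 1) := by
    intro p
    rcases p.2.2 with h | h
    · left
      refine ⟨h, ?_⟩
      simp only [χ, ContinuousMap.coe_mk]
      rw [max_eq_left (div_nonpos_of_nonpos_of_nonneg (by linarith [h.2]) hd.le)]; simp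
    · right
      have h' : p.1.2 = 1 := h
      refine ⟨h', ?_⟩
      simp only [χ, ContinuousMap.coe_mk]
      rw [h', div_self hd.ne']; simp
  let e : ℂ → C(K, ℂ) := fun z => NormedSpace.exp (z • X - z ^ 2 • Θ)
  let e' : ℂ → C(K, ℂ) := fun z => χ * NormedSpace.exp (z • X)
  have he : ∀ z p, e z p = cexp (z * p.1.1 - z ^ 2 * ((1 - p.1.2 : ℝ) : ℂ)) := fun z p => by
    simp only [e]; rw [exp_app]; rfl
  have he' : ∀ z p, e' z p = χ p * cexp (z * p.1.1) := fun z p => by
    simp only [e', ContinuousMap.mul_apply]; rw [exp_app]; rfl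
  have ed : Differentiable ℂ e := fun z =>
    (NormedSpace.exp_analytic (𝕂 := ℂ) _).differentiableAt.comp z
      (f := fun z : ℂ => z • X - z ^ 2 • Θ) (by fun_prop)
  have ed' : Differentiable ℂ e' := fun z => (differentiableAt_const χ).mul
    ((NormedSpace.exp_analytic (𝕂 := ℂ) _).differentiableAt.comp z
      (f := fun z : ℂ => z • X) (by fun_prop))
  have hx : ∀ p : K, |p.1.1| ≤ 1 := fun p => abs_le.2 p.2.1
  have ht : ∀ p : K, 0 ≤ p.1.2 := fun p => by
    rcases hχ p with h | h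
    · exact h.1.1
    · rw [h.1]; norm_num
  have eb : ∀ s : ℝ, ‖e (I * s)‖ ≤ Real.exp (s ^ 2) := fun s => by
    rw [ContinuousMap.norm_le _ (Real.exp_pos _).le]
    intro p
    rw [he, Complex.norm_exp]
    apply Real.exp_le_exp.2
    simp [pow_two]
    nlinarith [ht p, mul_self_nonneg s]
  have ec : Continuous fun s : ℝ => e (I * s) := ed.continuous.comp (by fun_prop)
  let G : (ℝ →ᵇ ℂ) → ℝ → C(K, ℂ) := fun a s =>
    (s * a s * (Real.exp (-2 * s ^ 2) : ℝ) : ℂ) • e (I * s)
  have Gi : ∀ a, Integrable (G a) := fun a => by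
    have := a.continuous
    refine (((integrable_mul_exp_neg_mul_sq one_pos).norm).const_mul ‖a‖).mono'
      (Continuous.aestronglyMeasurable (by simp only [G]; fun_prop)) (Eventually.of_forall fun s => ?_)
    simp only [G]
    rw [norm_smul, norm_mul, norm_mul, Complex.norm_real, Complex.norm_real, norm_mul,
      Real.norm_of_nonneg (Real.exp_pos _).le, Real.norm_of_nonneg (Real.exp_pos _).le]
    calc _ ≤ ‖s‖ * ‖a‖ * Real.exp (-2 * s ^ 2) * Real.exp (s ^ 2) := by
          gcongr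
          exacts [a.norm_coe_le_norm s, eb s]
      _ = _ := by
          rw [mul_assoc, ← Real.exp_add, show -2 * s ^ 2 + s ^ 2 = -1 * s ^ 2 by ring]; ring
  let Z0 : Submodule ℂ C(K, ℂ) :=
    { carrier := {y | ∃ a, y = ∫ s, G a s}
      add_mem' := by
        rintro _ _ ⟨a, rfl⟩ ⟨b, rfl⟩
        refine ⟨a + b, ?_⟩
        rw [← integral_add (Gi a) (Gi b)]
        congr 1; funext s
        simp only [G, BoundedContinuousFunction.coe_add, Pi.add_apply]
        rw [← add_smul]; congr 1; ring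
      zero_mem' := ⟨0, by simp [G]⟩
      smul_mem' := by
        rintro c _ ⟨a, rfl⟩
        refine ⟨c • a, ?_⟩
        rw [← integral_smul]
        congr 1; funext s
        simp only [G, BoundedContinuousFunction.coe_smul, smul_smul, smul_eq_mul]
        congr 1; ring }
  let Z := Z0.topologicalClosure
  have : IsClosed (Z : Set C(K, ℂ)) := Z0.isClosed_topologicalClosure
  let π : C(K, ℂ) →L[ℂ] C(K, ℂ) ⧸ Z := Z.mkQL
  have πz : ∀ y, π y = 0 ↔ y ∈ Z := fun y => Submodule.Quotient.mk_eq_zero Z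
  have πn : ∀ y, ‖π y‖ ≤ ‖y‖ := fun y => Submodule.Quotient.norm_mk_le Z y
  have s1 : ∀ s : ℝ, s ≠ 0 → π (e (I * s)) = 0 := by
    let f0 : ℝ → C(K, ℂ) ⧸ Z := fun s => (s * (Real.exp (-2 * s ^ 2) : ℝ) : ℂ) • π (e (I * s))
    have fc : Continuous f0 := by
      have : Continuous fun s : ℝ => π (e (I * s)) := π.continuous.comp ec
      simp only [f0]; fun_prop
    have h := ae_eq_zero_of_integral_contDiff_smul_eq_zero (μ := volume) fc.locallyIntegrable
      (fun g hg hs => by
        obtain ⟨C, hC⟩ := hs.exists_bound_of_continuous hg.continuous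
        have gc := hg.continuous
        let a : ℝ →ᵇ ℂ := ofNormedAddCommGroup (fun s => (g s : ℂ)) (by fun_prop) C
          (fun s => by rw [Complex.norm_real]; exact hC s)
        have h2 := (πz _).2 (Z0.le_topologicalClosure ⟨a, rfl⟩)
        rw [← π.integral_comp_comm (Gi a)] at h2
        rw [← h2]
        congr 1; funext s
        simp only [G, f0, map_smul]
        rw [← Complex.coe_smul, smul_smul]
        congr 1
        change _ = s * (g s : ℂ) * _
        ring)
    have h' : f0 = 0 := (fc.ae_eq_iff_eq volume continuous_const).1 h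
    intro s hs
    have := congrFun h' s
    simp only [f0, Pi.zero_apply, smul_eq_zero] at this
    refine this.resolve_left (mul_ne_zero (by exact_mod_cast hs) ?_)
    exact_mod_cast (Real.exp_pos _).ne'
  have s2 : ∀ z, π (e z) = 0 := by
    have ha : AnalyticOnNhd ℂ (fun z => π (e z)) univ :=
      (π.differentiable.comp ed).differentiableOn.analyticOnNhd isOpen_univ
    have hf : ∃ᶠ z in 𝓝[≠] (0 : ℂ), π (e z) = (fun _ => (0 : C(K, ℂ) ⧸ Z)) z := by
      have ht : Tendsto (fun s : ℝ => I * s) (𝓝[≠] 0) (𝓝[≠] 0) := by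
        apply tendsto_nhdsWithin_iff.2 ⟨?_, ?_⟩
        · have : Continuous fun s : ℝ => I * (s : ℂ) := by fun_prop
          simpa using (this.tendsto 0).mono_left nhdsWithin_le_nhds
        · filter_upwards [self_mem_nhdsWithin] with s hs
          exact mul_ne_zero I_ne_zero (by exact_mod_cast hs)
      apply ht.frequently
      apply Eventually.frequently
      filter_upwards [self_mem_nhdsWithin] with s hs using s1 s hs
    exact congrFun (ha.eq_of_frequently_eq analyticOnNhd_const hf)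
  have hχ1 : ∀ p, ‖χ p‖ ≤ 1 := fun p => by rcases hχ p with h | h <;> simp [h.2]
  have b1 : ∀ z, ‖π (e' z)‖ ≤ Real.exp |z.re| := fun z => by
    refine (πn _).trans ((ContinuousMap.norm_le _ (Real.exp_pos _).le).2 fun p => ?_)
    rw [he', norm_mul, Complex.norm_exp]
    refine (mul_le_of_le_one_left (Real.exp_pos _).le (hχ1 p)).trans (Real.exp_le_exp.2 ?_)
    rw [Complex.re_mul_ofReal]
    refine (le_abs_self _).trans ?_
    rw [abs_mul]; exact mul_le_of_le_one_right (abs_nonneg _) (hx p)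
  have b2 : ∀ x : ℝ, 0 ≤ x → ‖π (e' x)‖ ≤ Real.exp (x - x ^ 2 * (1 - τ0)) := fun x hx0 => by
    have : π (e' x) = π (e' x - e x) := by rw [map_sub, s2, sub_zero]
    rw [this]
    refine (πn _).trans ((ContinuousMap.norm_le _ (Real.exp_pos _).le).2 fun p => ?_)
    rw [ContinuousMap.sub_apply, he, he']
    rcases hχ p with h | h
    · rw [h.2, zero_mul, zero_sub, norm_neg, Complex.norm_exp]
      apply Real.exp_le_exp.2
      rw [← Complex.ofReal_pow, ← Complex.ofReal_mul, ← Complex.ofReal_mul, ← Complex.ofReal_sub,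
        Complex.ofReal_re]
      nlinarith [h.1.2, sq_nonneg x, (abs_le.1 (hx p)).2]
    · rw [h.2, h.1]; simp; positivity
  have s3 := PhragmenLindelof.eq_zero_on_right_half_plane_of_superexponential_decay
    (f := fun z => π (e' z)) (π.differentiable.comp ed').diffContOnCl
    ⟨1, by norm_num, 1, Asymptotics.IsBigO.of_bound 1 (Eventually.of_forall fun z => by
      refine (b1 z).trans ?_
      simp [Complex.abs_re_le_norm])⟩
    (fun n => by
      refine squeeze_zero' (Eventually.of_forall fun x => by positivity)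
        (g := fun x => Real.exp (-x)) ?_ Real.tendsto_exp_neg_atTop_nhds_zero
      filter_upwards [eventually_ge_atTop 0, eventually_ge_atTop ((n + 2) / (1 - τ0))] with x h0 h2
      rw [div_le_iff₀ hd] at h2
      calc _ ≤ Real.exp x ^ n * Real.exp (x - x ^ 2 * (1 - τ0)) := by gcongr; exact b2 x h0
        _ ≤ _ := by
          rw [← Real.exp_nat_mul, ← Real.exp_add]
          apply Real.exp_le_exp.2
          nlinarith [mul_le_mul_of_nonneg_left h2 h0])
    ⟨1, fun x => by simpa using b1 (x * I)⟩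
  let cs : C(K, ℂ) := ⟨fun p => (Real.cos p.1.1 : ℂ), by fun_prop⟩
  have s4 : ∀ (m : ℕ) (s : ℝ), cs ^ m * e' (I * s) ∈ Z := by
    intro m
    induction m with
    | zero => intro s; rw [pow_zero, one_mul, ← πz]; exact s3 (by simp)
    | succ m ih =>
      intro s
      have : cs ^ (m + 1) * e' (I * s) = (1 / 2 : ℂ) • (cs ^ m * e' (I * (s + 1 : ℝ)) +
          cs ^ m * e' (I * (s - 1 : ℝ))) := by
        ext p
        simp only [ContinuousMap.mul_apply, ContinuousMap.pow_apply, he', ContinuousMap.smul_apply,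
          ContinuousMap.add_apply, smul_eq_mul, cs, ContinuousMap.coe_mk]
        push_cast
        rw [show I * ((s : ℂ) + 1) * p.1.1 = I * s * p.1.1 + p.1.1 * I by ring,
          show I * ((s : ℂ) - 1) * p.1.1 = I * s * p.1.1 + -p.1.1 * I by ring, Complex.exp_add,
          Complex.exp_add, pow_succ]
        have := Complex.two_cos (p.1.1 : ℂ)
        linear_combination (1 / 2 * Complex.cos p.1.1 ^ m * χ p * cexp (I * s * p.1.1)) * this
      rw [this]
      exact Z.smul_mem _ (Z.add_mem (ih _) (ih _))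
  obtain ⟨_, ⟨a, rfl⟩, ha⟩ := Metric.mem_closure_iff.1 (s4 M 0) ε hε
  have ev : ∀ p : K, (∫ s, G a s) p = wt a p.1.1 p.1.2 := fun p => by
    rw [← ContinuousMap.evalCLM_apply (R := ℂ) p, ← ContinuousLinearMap.integral_comp_comm _ (Gi a)]
    unfold wt
    congr 1; funext s
    simp only [G, ContinuousMap.evalCLM_apply, ContinuousMap.smul_apply, he, smul_eq_mul]
    rw [mul_assoc _ _ (cexp _), mul_assoc _ _ (cexp _), Complex.ofReal_exp, Complex.ofReal_exp,
      ← Complex.exp_add, ← Complex.exp_add]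
    congr 2
    push_cast
    linear_combination (-(s : ℂ) ^ 2 * (1 - p.1.2)) * I_mul_I
  have hp : ∀ p : K, ‖wt a p.1.1 p.1.2 - (Real.cos p.1.1 : ℂ) ^ M * χ p‖ ≤ ε := fun p => by
    have := (ContinuousMap.dist_apply_le_dist p).trans ha.le
    rw [dist_comm, dist_eq_norm, ev] at this
    simpa [he', cs] using this
  refine ⟨a, fun x hx τ hτ => ?_, fun x hx => ?_⟩
  · have := hp ⟨(x, τ), hx, Or.inl hτ⟩
    rcases hχ ⟨(x, τ), hx, Or.inl hτ⟩ with h | h
    · simpa [h.2] using this
    · have h3 : τ = 1 := h.1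
      linarith [hτ.2]
  · have := hp ⟨(x, 1), hx, Or.inr rfl⟩
    rcases hχ ⟨(x, 1), hx, Or.inr rfl⟩ with h | h
    · have h3 : (1 : ℝ) ≤ τ0 := h.1.2
      linarith
    · simpa [h.2] using this

end Pool.Agent.H.MP_2d1ae5_an
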