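import Pool.Agent.H.MP_e522c7_an.I

set_option autoImplicit false
open MeasureTheory Set Filter Topology Complex ComplexConjugate

namespace Pool.Agent.H.MP_2d1ae5_an

open Pool.Agent.H.MP_e522c7_an (p p_pos p_le_one p_cont p_neg p_int p_integral p_mono Cm Cm_pos
  conv1s sig_nonneg X q q_eq q_nonneg sq_le_q P P_eq P_pos)

structure Maj (c : ℝ) (g : X → ℝ) : Prop where
  cpos : 0 < c
  cont : Continuous g
  pos : ∀ ξ, 0 < g ξ
  even : ∀ ξ, g (-ξ) = g ξ
  int : Integrable g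
  bdd : ∃ B, ∀ ξ, g ξ ≤ B
  conv : ∀ ξ, Integrable (fun η => g (ξ - η) * g η) ∧ ∫ η, g (ξ - η) * g η ≤ c * g ξ

lemma maj_prod {c : ℝ} (hc : 0 < c) (f : Fin 3 → ℝ → ℝ) (h1 : ∀ i, Continuous (f i))
    (h2 : ∀ i y, 0 < f i y) (h3 : ∀ i y, f i (-y) = f i y) (h4 : ∀ i, Integrable (f i))
    (h5 : ∀ i, ∃ B, ∀ y, f i y ≤ B)
    (h6 : ∀ i x, Integrable (fun y => f i (x - y) * f i y) ∧ ∫ y, f i (x - y) * f i y ≤ c * f i x) :
    Maj (c ^ 3) (fun ξ => ∏ i, f i (ξ i)) := by
  refine ⟨by positivity, continuous_finsetProd _ fun i _ => (h1 i).comp (continuous_apply i),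
    fun ξ => Finset.prod_pos fun i _ => h2 _ _, fun ξ => by simp [h3],
    Integrable.fintype_prod (μ := fun _ => volume) h4, ?_, fun ξ => ?_⟩
  · choose B hB using h5
    exact ⟨∏ i, B i, fun ξ => Finset.prod_le_prod (fun i _ => (h2 _ _).le) fun i _ => hB _ _⟩
  · simp_rw [← Finset.prod_mul_distrib, Pi.sub_apply]
    refine ⟨Integrable.fintype_prod (μ := fun _ => volume)
      (f := fun i y => f i (ξ i - y) * f i y) fun i => (h6 i _).1, ?_⟩
    rw [integral_fintype_prod_volume_eq_prod (fun i y => f i (ξ i - y) * f i y)]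
    refine (Finset.prod_le_prod (fun i _ => integral_nonneg fun y =>
      (mul_pos (h2 _ _) (h2 _ _)).le) fun i _ => (h6 i _).2).trans (le_of_eq ?_)
    rw [Finset.prod_mul_distrib]; simp

lemma conv0 {k : ℕ} (hk : 1 ≤ k) {a : ℝ} (ha : 0 < a) (x : ℝ) :
    Integrable (fun y => p k (a * (x - y)) * p k (a * y)) ∧
      ∫ y, p k (a * (x - y)) * p k (a * y) ≤ Cm k / a * p k (a * x) := by
  simpa using conv1s (g := fun _ => 1) measurable_const (fun _ => zero_le_one)
    (fun y => by linarith [sig_nonneg y]) hk ha x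

lemma majP {k : ℕ} (hk : 1 ≤ k) : Maj (Cm k ^ 3) (P k) := by
  have : P k = fun ξ : X => ∏ i, (fun _ => p k) i (ξ i) := by
    funext ξ; rw [P_eq, Fin.prod_univ_three]
  rw [this]
  exact maj_prod (Cm_pos k) _ (fun _ => p_cont k) (fun _ => p_pos k) (fun _ => p_neg k)
    (fun _ => p_int hk) (fun _ => ⟨1, p_le_one k⟩) fun _ x => by simpa using conv0 hk one_pos x

noncomputable def μ (L y : ℝ) : ℝ := L * (Real.exp (-|L * y|) * p 1 (L * y))

lemma μ_pos {L : ℝ} (hL : 0 < L) (y : ℝ) : 0 < μ L y :=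
  mul_pos hL (mul_pos (Real.exp_pos _) (p_pos _ _))

lemma μ_le {L : ℝ} (hL : 0 < L) (y : ℝ) : μ L y ≤ L * p 1 (L * y) :=
  mul_le_mul_of_nonneg_left (mul_le_of_le_one_left (p_pos _ _).le
    (Real.exp_le_one_iff.2 (neg_nonpos.2 (abs_nonneg _)))) hL.le

lemma μ_cont (L : ℝ) : Continuous (μ L) := by
  have := p_cont 1
  unfold μ; fun_prop

lemma μ_int {L : ℝ} (hL : 0 < L) : Integrable (μ L) ∧ ∫ y, μ L y ≤ Real.pi := by
  have i1 : Integrable fun y => L * p 1 (L * y) :=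
    ((p_int le_rfl).comp_mul_left' hL.ne').const_mul L
  have i2 : Integrable (μ L) := i1.mono' (μ_cont L).aestronglyMeasurable
    (Eventually.of_forall fun y => by rw [Real.norm_of_nonneg (μ_pos hL y).le]; exact μ_le hL y)
  refine ⟨i2, (integral_mono i2 i1 (μ_le hL)).trans ?_⟩
  rw [integral_const_mul, Measure.integral_comp_mul_left (p 1) L, abs_of_pos (inv_pos.2 hL),
    smul_eq_mul, ← mul_assoc, mul_inv_cancel₀ hL.ne', one_mul]
  exact p_integral le_rfl

lemma μ_conv {L : ℝ} (hL : 0 < L) (x : ℝ) : Integrable (fun y => μ L (x - y) * μ L y) ∧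
    ∫ y, μ L (x - y) * μ L y ≤ Cm 1 * μ L x := by
  obtain ⟨a1, a2⟩ := conv0 le_rfl hL x
  have hb : ∀ y, μ L (x - y) * μ L y ≤
      L ^ 2 * Real.exp (-|L * x|) * (p 1 (L * (x - y)) * p 1 (L * y)) := by
    intro y
    have h1 : Real.exp (-|L * (x - y)|) * Real.exp (-|L * y|) ≤ Real.exp (-|L * x|) := by
      rw [← Real.exp_add]
      apply Real.exp_le_exp.2
      have := abs_add_le (L * (x - y)) (L * y)
      rw [show L * (x - y) + L * y = L * x by ring] at this
      linarith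
    have h2 := mul_pos (p_pos 1 (L * (x - y))) (p_pos 1 (L * y))
    calc _ = L ^ 2 * (Real.exp (-|L * (x - y)|) * Real.exp (-|L * y|)) *
          (p 1 (L * (x - y)) * p 1 (L * y)) := by unfold μ; ring
      _ ≤ _ := by gcongr
  have i1 : Integrable (fun y => μ L (x - y) * μ L y) := by
    have := μ_cont L
    refine (a1.const_mul (L ^ 2 * Real.exp (-|L * x|))).mono'
      (Continuous.aestronglyMeasurable (by fun_prop)) (Eventually.of_forall fun y => ?_)
    rw [Real.norm_of_nonneg (mul_pos (μ_pos hL _) (μ_pos hL _)).le]; exact hb y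
  refine ⟨i1, (integral_mono i1 (a1.const_mul _) hb).trans ?_⟩
  rw [integral_const_mul]
  calc _ ≤ L ^ 2 * Real.exp (-|L * x|) * (Cm 1 / L * p 1 (L * x)) := by gcongr
    _ = _ := by unfold μ; field_simp

noncomputable def sc (L : ℝ) : Fin 3 → ℝ := ![1, L, L]

lemma sc_ge {L : ℝ} (hL : 1 ≤ L) (i : Fin 3) : 1 ≤ sc L i := by
  fin_cases i <;> simp [sc, hL]

noncomputable def m (L : ℝ) (ξ : X) : ℝ := ∏ i, μ (sc L i) (ξ i)

lemma majm {L : ℝ} (hL : 1 ≤ L) : Maj (Cm 1 ^ 3) (m L) := by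
  have h : ∀ i, 0 < sc L i := fun i => by linarith [sc_ge hL i]
  exact maj_prod (Cm_pos 1) (fun i => μ (sc L i)) (fun _ => μ_cont _) (fun i => μ_pos (h i))
    (fun i y => by simp [μ, p_neg]) (fun i => (μ_int (h i)).1)
    (fun i => ⟨sc L i, fun y => (μ_le (h i) y).trans
      (mul_le_of_le_one_right (h i).le (p_le_one _ _))⟩) fun i => μ_conv (h i)

lemma m_integral {L : ℝ} (hL : 1 ≤ L) : ∫ ξ, m L ξ ≤ 64 := by
  have h : ∀ i, 0 < sc L i := fun i => by linarith [sc_ge hL i]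
  unfold m
  rw [integral_fintype_prod_volume_eq_prod (fun i => μ (sc L i))]
  refine (Finset.prod_le_prod (fun i _ => integral_nonneg fun y => (μ_pos (h i) y).le)
    fun i _ => (μ_int (h i)).2.trans Real.pi_le_four).trans (by simp; norm_num)

lemma m_dec {L : ℝ} (hL : 1 ≤ L) (k : ℕ) : ∃ c, 0 ≤ c ∧ ∀ ξ, m L ξ ≤ c * P k ξ := by
  have h : ∀ a y : ℝ, 1 ≤ a → μ a y ≤ a * ((2 * k).factorial * Real.exp 1) * p k y := by
    intro a y ha
    have h1 : p k (a * y) ≤ p k y :=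
      p_mono k (by rw [mul_pow]; nlinarith [sq_nonneg y, one_le_pow₀ (n := 2) ha])
    have h2 := Real.pow_div_factorial_le_exp (1 + |a * y|) (by positivity) (2 * k)
    rw [div_le_iff₀ (by positivity), Real.exp_add] at h2
    have h3 : (1 + (a * y) ^ 2) ^ k ≤ (1 + |a * y|) ^ (2 * k) := by
      rw [pow_mul]
      exact pow_le_pow_left₀ (by positivity) (by nlinarith [sq_abs (a * y), abs_nonneg (a * y)]) k
    have h4 : Real.exp (-|a * y|) ≤ (2 * k).factorial * Real.exp 1 * p k (a * y) := by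
      unfold p
      rw [← div_eq_mul_inv, le_div_iff₀ (by positivity), Real.exp_neg,
        inv_mul_le_iff₀ (Real.exp_pos _)]
      linarith
    unfold μ
    rw [mul_assoc a]
    apply mul_le_mul_of_nonneg_left _ (by linarith)
    refine (mul_le_of_le_one_right (Real.exp_pos _).le (p_le_one _ _)).trans (h4.trans ?_)
    gcongr
  refine ⟨∏ i, sc L i * ((2 * k).factorial * Real.exp 1), Finset.prod_nonneg fun i _ => by
    have := sc_ge hL i; positivity, fun ξ => ?_⟩
  rw [P_eq, ← Fin.prod_univ_three (fun i => p k (ξ i)), ← Finset.prod_mul_distrib]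
  exact Finset.prod_le_prod (fun i _ => (μ_pos (by linarith [sc_ge hL i]) _).le)
    fun i _ => h _ _ (sc_ge hL i)

noncomputable def sy (f : ℝ × X → ℂ) (z : ℝ × X) : ℂ := (f z + conj (f (z.1, -z.2))) / 2

noncomputable def cv (f h : ℝ × X → ℂ) (z : ℝ × X) : ℂ := ∫ η, f (z.1, z.2 - η) * h (z.1, η)

/-- bound of a time slice -/
def Bd (g : X → ℝ) (t α : ℝ) (f : ℝ × X → ℂ) : Prop :=
  Measurable (fun ξ => f (t, ξ)) ∧ ∀ ξ, ‖f (t, ξ)‖ ≤ α * g ξ

variable {c : ℝ} {g : X → ℝ} {t α β : ℝ} {f h : ℝ × X → ℂ}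

lemma Bd.nonneg (hg : Maj c g) (hf : Bd g t α f) : 0 ≤ α :=
  nonneg_of_mul_nonneg_left ((norm_nonneg _).trans (hf.2 0)) (hg.pos _)

lemma Bd.sy (hg : Maj c g) (hf : Bd g t α f) : Bd g t α (sy f) := by
  refine ⟨(hf.1.add (continuous_conj.measurable.comp (hf.1.comp measurable_neg))).div_const _,
    fun ξ => ?_⟩
  unfold MP_2d1ae5_an.sy
  rw [norm_div, Complex.norm_two, div_le_iff₀ two_pos]
  refine (norm_add_le _ _).trans ?_
  have := hf.2 (-ξ)
  rw [hg.even] at this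
  rw [RCLike.norm_conj]
  linarith [hf.2 ξ]

lemma Bd.cv_int (hg : Maj c g) (hf : Bd g t α f) (hh : Bd g t β h) (ξ : X) :
    Integrable (fun η => f (t, ξ - η) * h (t, η)) ∧ ‖cv f h (t, ξ)‖ ≤ α * β * c * g ξ := by
  have ha := hf.nonneg hg
  have hb := hh.nonneg hg
  have b : ∀ η, ‖f (t, ξ - η) * h (t, η)‖ ≤ α * β * (g (ξ - η) * g η) := fun η => by
    rw [norm_mul]
    have := hg.pos (ξ - η)
    calc _ ≤ (α * g (ξ - η)) * (β * g η) := by
          gcongr
          exacts [hf.2 _, hh.2 _]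
      _ = _ := by ring
  refine ⟨((hg.conv ξ).1.const_mul _).mono' ((hf.1.comp (measurable_const.sub measurable_id)).mul
    hh.1).aestronglyMeasurable (Eventually.of_forall b), ?_⟩
  refine (norm_integral_le_of_norm_le ((hg.conv ξ).1.const_mul _) (Eventually.of_forall b)).trans ?_
  rw [integral_const_mul, mul_assoc (α * β)]
  exact mul_le_mul_of_nonneg_left (hg.conv ξ).2 (mul_nonneg ha hb)

lemma Bd.cv (hg : Maj c g) (hf : Bd g t α f) (hh : Bd g t β h) : Bd g t (α * β * c) (cv f h) := by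
  refine ⟨?_, fun ξ => (hf.cv_int hg hh ξ).2⟩
  have : Measurable fun z : X × X => f (t, z.1 - z.2) * h (t, z.2) :=
    (hf.1.comp (measurable_fst.sub measurable_snd)).mul (hh.1.comp measurable_snd)
  exact this.stronglyMeasurable.integral_prod_right'.measurable

lemma Bd.int (hg : Maj c g) (hf : Bd g t α f) : Integrable fun ξ => f (t, ξ) :=
  (hg.int.const_mul α).mono' hf.1.aestronglyMeasurable (Eventually.of_forall hf.2)

lemma cv_cont (hg : Maj c g) (fc : Continuous f) (hc : Continuous h) (hf : ∀ t, Bd g t α f)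
    (hh : ∀ t, Bd g t β h) : Continuous (cv f h) := by
  obtain ⟨B, hB⟩ := hg.bdd
  have ha := (hf 0).nonneg hg
  refine continuous_of_dominated (bound := fun η => α * B * (β * g η))
    (fun z => Continuous.aestronglyMeasurable (by fun_prop))
    (fun z => Eventually.of_forall fun η => ?_) ((hg.int.const_mul _).const_mul _)
    (Eventually.of_forall fun η => by fun_prop)
  rw [norm_mul]
  have h1 := ((hf z.1).2 (z.2 - η)).trans (mul_le_mul_of_nonneg_left (hB _) ha)
  exact mul_le_mul h1 ((hh z.1).2 η) (norm_nonneg _) ((norm_nonneg _).trans h1)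

lemma sy_cont (fc : Continuous f) : Continuous (sy f) := by
  have := continuous_conj
  unfold sy; fun_prop

noncomputable def T (u v : Fin 3 → ℝ × X → ℂ) (k : Fin 3) (z : ℝ × X) : ℂ :=
  ∑ j, z.2 j * cv (sy (u j)) (sy (v k)) z

noncomputable def ρ (i k : Fin 3) (ξ : X) : ℝ := ξ i * ξ k / q ξ

noncomputable def B (u v : Fin 3 → ℝ × X → ℂ) (i : Fin 3) (z : ℝ × X) : ℂ :=
  I * (T u v i z - ∑ k, ρ i k z.2 * T u v k z)

lemma ρ_le (i k : Fin 3) (ξ : X) : |ρ i k ξ| ≤ 1 := by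
  unfold ρ
  rw [abs_div, abs_of_nonneg (q_nonneg ξ)]
  refine div_le_one_of_le₀ ?_ (q_nonneg ξ)
  rw [abs_mul]
  nlinarith [sq_le_q ξ i, sq_le_q ξ k, sq_abs (ξ i), sq_abs (ξ k), sq_nonneg (|ξ i| - |ξ k|)]

lemma ρ_meas (i k : Fin 3) : Measurable (ρ i k) := by
  have := Pool.Agent.H.MP_e522c7_an.q_cont.measurable
  unfold ρ; fun_prop

lemma ρ_cont (i k j : Fin 3) : Continuous fun ξ : X => ρ i k ξ * ξ j := by
  rw [continuous_iff_continuousAt]
  intro ξ
  by_cases h : q ξ = 0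
  · have h0 : ξ j = 0 := by have := sq_le_q ξ j; rw [h] at this; exact pow_eq_zero_iff (two_ne_zero) |>.1 (le_antisymm this (sq_nonneg _))
    unfold ContinuousAt
    simp only [h0, mul_zero]
    refine squeeze_zero_norm (a := fun η : X => |η j|) (fun η => ?_) ?_
    · rw [Real.norm_eq_abs, abs_mul]
      exact mul_le_of_le_one_left (abs_nonneg _) (ρ_le _ _ _)
    · have : Continuous fun η : X => |η j| := by fun_prop
      simpa [h0] using this.tendsto ξ
  · exact ((((continuous_apply i).mul (continuous_apply k)).continuousAt).div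
      Pool.Agent.H.MP_e522c7_an.q_cont.continuousAt h).mul (continuous_apply j).continuousAt

lemma B_le {u v : Fin 3 → ℝ × X → ℂ} {z : ℝ × X} {a : ℝ} (h : ∀ k, ‖T u v k z‖ ≤ a) (i : Fin 3) :
    ‖B u v i z‖ ≤ 4 * a := by
  unfold B
  rw [norm_mul, norm_I, one_mul]
  refine (norm_sub_le _ _).trans ?_
  have : ‖∑ k, ρ i k z.2 * T u v k z‖ ≤ ∑ _k : Fin 3, a := norm_sum_le_of_le _ fun k _ => by
    rw [norm_mul, Complex.norm_real]
    exact (mul_le_of_le_one_left (norm_nonneg _) (ρ_le _ _ _)).trans (h k)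
  simp only [Finset.sum_const, Finset.card_univ, Fintype.card_fin, nsmul_eq_mul] at this
  push_cast at this
  linarith [h i]

lemma B_bound (hg : Maj c g) {u v : Fin 3 → ℝ × X → ℂ} (hu : ∀ j, Bd g t α (u j))
    (hv : ∀ j, Bd g t β (v j)) (i : Fin 3) (ξ : X) :
    ‖B u v i (t, ξ)‖ ≤ 12 * c * √(q ξ) * (α * β) * g ξ := by
  refine (B_le (a := 3 * (√(q ξ) * (α * β * c * g ξ))) (fun k => ?_) i).trans (le_of_eq (by ring))
  have : ‖T u v k (t, ξ)‖ ≤ ∑ _j : Fin 3, √(q ξ) * (α * β * c * g ξ) :=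
    norm_sum_le_of_le _ fun j _ => by
      rw [norm_mul, Complex.norm_real]
      exact mul_le_mul (Real.abs_le_sqrt (sq_le_q ξ j))
        (((hu j).sy hg).cv_int hg ((hv k).sy hg) ξ).2 (norm_nonneg _) (Real.sqrt_nonneg _)
  simpa using this

lemma B_cont (hg : Maj c g) {u v : Fin 3 → ℝ × X → ℂ} (uc : ∀ j, Continuous (u j))
    (vc : ∀ j, Continuous (v j)) (hu : ∀ t j, Bd g t α (u j)) (hv : ∀ t j, Bd g t β (v j))
    (i : Fin 3) : Continuous (B u v i) := by
  have h1 : ∀ j k, Continuous (cv (sy (u j)) (sy (v k))) := fun j k =>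
    cv_cont hg (sy_cont (uc j)) (sy_cont (vc k)) (fun t => (hu t j).sy hg) fun t => (hv t k).sy hg
  have h2 := ρ_cont
  unfold B T
  simp_rw [Finset.mul_sum, ← mul_assoc, ← Complex.ofReal_mul]
  refine continuous_const.mul (Continuous.sub (by fun_prop) (continuous_finsetSum _ fun k _ =>
    continuous_finsetSum _ fun j _ => Continuous.mul ?_ (h1 _ _)))
  exact continuous_ofReal.comp ((h2 i k j).comp continuous_snd)

lemma B_sub (hg : Maj c g) {u v : Fin 3 → ℝ × X → ℂ} (hu : ∀ j, Bd g t α (u j))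
    (hv : ∀ j, Bd g t α (v j)) (hw : ∀ j, Bd g t β (fun z => u j z - v j z)) (i : Fin 3) (ξ : X) :
    B u u i (t, ξ) - B v v i (t, ξ) =
      B (fun j z => u j z - v j z) u i (t, ξ) + B v (fun j z => u j z - v j z) i (t, ξ) := by
  have h : ∀ j k, cv (sy (u j)) (sy (u k)) (t, ξ) = cv (sy (v j)) (sy (v k)) (t, ξ) +
      cv (sy fun z => u j z - v j z) (sy (u k)) (t, ξ) +
        cv (sy (v j)) (sy fun z => u k z - v k z) (t, ξ) := by
    intro j k
    have i1 := (((hv j).sy hg).cv_int hg ((hv k).sy hg) ξ).1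
    have i2 := (((hw j).sy hg).cv_int hg ((hu k).sy hg) ξ).1
    have i3 := (((hv j).sy hg).cv_int hg ((hw k).sy hg) ξ).1
    unfold cv
    have i4 : Integrable fun η => sy (v j) (t, ξ - η) * sy (v k) (t, η) +
      sy (fun z => u j z - v j z) (t, ξ - η) * sy (u k) (t, η) := i1.add i2
    simp only
    rw [← integral_add i1 i2, ← integral_add i4 i3]
    congr 1; funext η
    simp only [sy, map_sub]; ring
  simp only [B, T, h, Fin.sum_univ_three]
  ring

lemma B_div (u v : Fin 3 → ℝ × X → ℂ) (z : ℝ × X) : ∑ i, z.2 i * B u v i z = 0 := by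
  by_cases h : q z.2 = 0
  · refine Finset.sum_eq_zero fun j _ => ?_
    have h0 : z.2 j = 0 := by have := sq_le_q z.2 j; rw [h] at this; exact pow_eq_zero_iff (two_ne_zero) |>.1 (le_antisymm this (sq_nonneg _))
    simp [h0]
  · have h1 : ((q z.2 : ℝ) : ℂ) ≠ 0 := by exact_mod_cast h
    have h2 : ((q z.2 : ℝ) : ℂ) = z.2 0 ^ 2 + z.2 1 ^ 2 + z.2 2 ^ 2 := by rw [q_eq]; push_cast; rfl
    simp only [B, ρ, Fin.sum_univ_three]
    push_cast
    field_simp
    rw [h2]; ring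

end Pool.Agent.H.MP_2d1ae5_an
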