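import Pool.Agent.H.MP_2d1ae5_an.B

set_option autoImplicit false
open MeasureTheory Set Filter Topology Complex ComplexConjugate BoundedContinuousFunction

namespace Pool.Agent.H.MP_2d1ae5_an

open Pool.Agent.H.MP_e522c7_an (X q q_eq q_nonneg sq_le_q q_cont)

noncomputable def ct (t : ℝ) : ℝ := max 0 (min 1 t)

@[fun_prop] lemma ct_cont : Continuous ct := by unfold ct; fun_prop

lemma ct_mem (t : ℝ) : ct t ∈ Icc (0 : ℝ) 1 :=
  ⟨le_max_left _ _, max_le zero_le_one (min_le_left _ _)⟩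

lemma ct_of {t : ℝ} (h : t ∈ Icc (0 : ℝ) 1) : ct t = t := by
  rw [ct, min_eq_right h.2, max_eq_right h.1]

noncomputable def J (F : ℝ × X → ℂ) (z : ℝ × X) : ℂ :=
  ∫ s in (0 : ℝ)..ct z.1, (Real.exp (-((ct z.1 - s) * q z.2)) : ℝ) * F (s, z.2)

lemma J_cont {F : ℝ × X → ℂ} (h : Continuous F) : Continuous (J F) := by
  unfold J
  apply intervalIntegral.continuous_parametric_intervalIntegral_of_continuous
    (f := fun (z : ℝ × X) s => (Real.exp (-((ct z.1 - s) * q z.2)) : ℝ) * F (s, z.2)) _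
    (by fun_prop)
  unfold Function.uncurry
  have := q_cont
  fun_prop

lemma J_sub {F G : ℝ × X → ℂ} (hF : Continuous F) (hG : Continuous G) (z : ℝ × X) :
    J F z - J G z = J (fun w => F w - G w) z := by
  unfold J
  rw [← intervalIntegral.integral_sub (Continuous.intervalIntegrable (by fun_prop) _ _)
    (Continuous.intervalIntegrable (by fun_prop) _ _)]
  congr 1; funext s; ring

lemma J_le0 {F : ℝ × X → ℂ} {K : ℝ} (z : ℝ × X) (h : ∀ s, ‖F (s, z.2)‖ ≤ K) : ‖J F z‖ ≤ K := by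
  have hK : 0 ≤ K := (norm_nonneg _).trans (h 0)
  have ht := ct_mem z.1
  refine (intervalIntegral.norm_integral_le_of_norm_le_const (C := K) fun s hs => ?_).trans ?_
  · rw [uIoc_of_le ht.1] at hs
    rw [norm_mul, Complex.norm_real, Real.norm_of_nonneg (Real.exp_pos _).le]
    refine (mul_le_of_le_one_left (norm_nonneg _) (Real.exp_le_one_iff.2 ?_)).trans (h s)
    exact neg_nonpos.2 (mul_nonneg (sub_nonneg.2 hs.2) (q_nonneg _))
  · rw [sub_zero, abs_of_nonneg ht.1]
    exact mul_le_of_le_one_right hK ht.2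

lemma J_le {F : ℝ × X → ℂ} {K Λ : ℝ} (hK : 0 ≤ K) (hΛ : 0 < Λ) (z : ℝ × X)
    (h : ∀ s ∈ Icc (0 : ℝ) 1, ‖F (s, z.2)‖ ≤ K * √(q z.2) * Real.exp (Λ ^ 2 * s)) :
    ‖J F z‖ ≤ K / (2 * Λ) * Real.exp (Λ ^ 2 * ct z.1) := by
  have ht := ct_mem z.1
  unfold J
  generalize ct z.1 = t at *
  have hq := q_nonneg z.2
  have hr := Real.sqrt_nonneg (q z.2)
  have hr2 := Real.sq_sqrt hq
  generalize √(q z.2) = r at *
  generalize q z.2 = Q at *
  have hd : ∀ s ∈ uIcc (0 : ℝ) t, HasDerivAt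
      (fun s => K * r / (Q + Λ ^ 2) * Real.exp (-((t - s) * Q) + Λ ^ 2 * s))
      (K * r * Real.exp (-((t - s) * Q) + Λ ^ 2 * s)) s := by
    intro s _
    have := (((((hasDerivAt_id s).const_sub t).mul_const Q).fun_neg.fun_add
      ((hasDerivAt_id s).const_mul (Λ ^ 2))).exp).const_mul (K * r / (Q + Λ ^ 2))
    refine this.congr_deriv ?_
    simp only [id]; field_simp
  have hI := intervalIntegral.integral_eq_sub_of_hasDerivAt hd
    (Continuous.intervalIntegrable (by fun_prop) _ _)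
  refine (intervalIntegral.norm_integral_le_of_norm_le (μ := volume) ht.1
    (g := fun s => K * r * Real.exp (-((t - s) * Q) + Λ ^ 2 * s))
    (Eventually.of_forall fun s hs => ?_) (Continuous.intervalIntegrable (by fun_prop) _ _)).trans ?_
  · rw [norm_mul, Complex.norm_real, Real.norm_of_nonneg (Real.exp_pos _).le, Real.exp_add]
    have := mul_le_mul_of_nonneg_left (h s ⟨hs.1.le, hs.2.trans ht.2⟩)
      (Real.exp_pos (-((t - s) * Q))).le
    linarith
  · rw [hI]
    have h1 : K * r / (Q + Λ ^ 2) ≤ K / (2 * Λ) := by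
      rw [div_le_div_iff₀ (by positivity) (by positivity)]
      nlinarith [mul_nonneg hK (sq_nonneg (r - Λ))]
    have h2 : 0 ≤ K * r / (Q + Λ ^ 2) * Real.exp (-((t - 0) * Q) + Λ ^ 2 * 0) := by positivity
    simp only [sub_self, zero_mul, neg_zero, zero_add]
    have h3 := mul_le_mul_of_nonneg_right h1 (Real.exp_pos (Λ ^ 2 * t)).le
    linarith

variable {c : ℝ} {g : X → ℝ}

lemma Bd.mono {t α β : ℝ} {f : ℝ × X → ℂ} (hg : Maj c g) (h : Bd g t α f) (hαβ : α ≤ β) :
    Bd g t β f :=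
  ⟨h.1, fun ξ => (h.2 ξ).trans (mul_le_mul_of_nonneg_right hαβ (hg.pos ξ).le)⟩

lemma Bd.add {t α β : ℝ} {f h : ℝ × X → ℂ} (hf : Bd g t α f) (hh : Bd g t β h) :
    Bd g t (α + β) fun z => f z + h z :=
  ⟨hf.1.add hh.1, fun ξ => (norm_add_le _ _).trans (by linarith [hf.2 ξ, hh.2 ξ])⟩

lemma J_diff (hg : Maj c g) {W d : ℝ} (hW : 0 < W) (hd : 0 ≤ d) {u v : Fin 3 → ℝ × X → ℂ}
    (uc : ∀ j, Continuous (u j)) (vc : ∀ j, Continuous (v j)) (hu : ∀ t j, Bd g t W (u j))
    (hv : ∀ t j, Bd g t W (v j))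
    (hw : ∀ t j, Bd g t (d * Real.exp ((24 * c * W) ^ 2 * ct t)) fun z => u j z - v j z)
    (i : Fin 3) (z : ℝ × X) :
    ‖J (B u u i) z - J (B v v i) z‖ ≤ d / 2 * (Real.exp ((24 * c * W) ^ 2 * ct z.1) * g z.2) := by
  have hc := hg.cpos
  have hp := hg.pos z.2
  rw [J_sub (B_cont hg uc uc hu hu i) (B_cont hg vc vc hv hv i)]
  refine (J_le (K := 24 * c * W * d * g z.2) (Λ := 24 * c * W) (by positivity) (by positivity) z
    fun s hs => ?_).trans (le_of_eq (by field_simp))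
  rw [B_sub hg (hu s) (hv s) (hw s)]
  have h1 := B_bound hg (hw s) (hu s) i z.2
  have h2 := B_bound hg (hv s) (hw s) i z.2
  rw [ct_of hs] at h1 h2
  refine (norm_add_le _ _).trans ((add_le_add h1 h2).trans (le_of_eq (by ring)))

theorem exists_fix (hg : Maj c g) {W η : ℝ} (hW : 0 ≤ W) (h0 : 0 < η) (h1 : η ≤ 1)
    {A : Fin 3 → ℝ × X → ℂ} (Ac : ∀ j, Continuous (A j)) (Ab : ∀ t j, Bd g t W (A j))
    (hF : ∀ i z, ‖B A A i z‖ ≤ η * Real.exp (-(24 * c * (W + 1)) ^ 2) / 2 * g z.2) :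
    ∃ R : Fin 3 → ℝ × X → ℂ, (∀ j, Continuous (R j)) ∧ (∀ t j, Bd g t η (R j)) ∧
      ∀ i z, R i z = -J (B (fun j z => A j z + R j z) (fun j z => A j z + R j z) i) z := by
  set l := (24 * c * (W + 1)) ^ 2 with hl
  have hl0 : 0 ≤ l := sq_nonneg _
  set r := η * Real.exp (-l) with hr
  have hr0 : 0 < r := by positivity
  have gc := hg.cont
  let w : ℝ × X → ℝ := fun z => Real.exp (l * ct z.1) * g z.2
  have wp : ∀ z, 0 < w z := fun z => mul_pos (Real.exp_pos _) (hg.pos _)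
  have wc : Continuous w := by simp only [w]; fun_prop
  let R : (ℝ × X →ᵇ (Fin 3 → ℂ)) → Fin 3 → ℝ × X → ℂ := fun f j z => w z * f z j
  have Rc : ∀ f j, Continuous (R f j) := fun f j => by
    have := f.continuous
    simp only [R]; fun_prop
  have Rb : ∀ f t j, Bd g t (‖f‖ * Real.exp (l * ct t)) (R f j) := fun f t j =>
    ⟨((Rc f j).comp (Continuous.prodMk_right t)).measurable, fun ξ => by
      simp only [R]
      rw [norm_mul, Complex.norm_real, Real.norm_of_nonneg (wp _).le]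
      have := mul_le_mul_of_nonneg_left ((norm_le_pi_norm (f (t, ξ)) j).trans
        (f.norm_coe_le_norm _)) (wp (t, ξ)).le
      simp only [w] at this ⊢
      linarith⟩
  have Rη : ∀ f, ‖f‖ ≤ r → ∀ t j, Bd g t η (R f j) := fun f hf t j => (Rb f t j).mono hg (by
    calc ‖f‖ * Real.exp (l * ct t) ≤ r * Real.exp l := by
          gcongr; exact mul_le_of_le_one_right hl0 (ct_mem t).2
      _ = η := by rw [hr, mul_assoc, ← Real.exp_add]; simp)
  let U : (ℝ × X →ᵇ (Fin 3 → ℂ)) → Fin 3 → ℝ × X → ℂ := fun f j z => A j z + R f j z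
  have Uc : ∀ f j, Continuous (U f j) := fun f j => (Ac j).add (Rc f j)
  have Ub : ∀ f, ‖f‖ ≤ r → ∀ t j, Bd g t (W + 1) (U f j) := fun f hf t j =>
    ((Ab t j).add (Rη f hf t j)).mono hg (by linarith)
  let S := Metric.closedBall (0 : ℝ × X →ᵇ (Fin 3 → ℂ)) r
  have hS : ∀ f : S, ‖f.1‖ ≤ r := fun f => mem_closedBall_zero_iff.1 f.2
  let φ : S → ℝ × X → Fin 3 → ℂ := fun f z i => -J (B (U f) (U f) i) z / w z
  have φc : ∀ f, Continuous (φ f) := fun f => continuous_pi fun i => by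
    have := J_cont (B_cont hg (Uc f) (Uc f) (Ub f (hS f)) (Ub f (hS f)) i)
    exact this.neg.div (continuous_ofReal.comp wc) fun z => by exact_mod_cast (wp z).ne'
  have φb : ∀ f z, ‖φ f z‖ ≤ r := fun f z => (pi_norm_le_iff_of_nonneg hr0.le).2 fun i => by
    have a1 := J_diff hg (W := W + 1) (d := r) (by linarith) hr0.le (Uc f) Ac (Ub f (hS f))
      (fun t j => (Ab t j).mono hg (by linarith)) (fun t j => by
        simp only [U, add_sub_cancel_left]
        exact (Rb f t j).mono hg (mul_le_mul_of_nonneg_right (hS f) (Real.exp_pos _).le)) i z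
    have a2 := J_le0 (F := B A A i) (K := r / 2 * g z.2) z fun s => hF i (s, z.2)
    have a3 : g z.2 ≤ w z := le_mul_of_one_le_left (hg.pos _).le
      (Real.one_le_exp (mul_nonneg hl0 (ct_mem _).1))
    simp only [φ]
    rw [norm_div, norm_neg, Complex.norm_real, Real.norm_of_nonneg (wp z).le, div_le_iff₀ (wp z)]
    have a4 := norm_le_norm_add_norm_sub' (J (B (U f) (U f) i) z) (J (B A A i) z)
    have a5 := mul_le_mul_of_nonneg_left a3 hr0.le
    change _ ≤ r / 2 * w z at a1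
    linarith
  let Φ : S → S := fun f => ⟨ofNormedAddCommGroup (φ f) (φc f) r (φb f),
    mem_closedBall_zero_iff.2 (norm_ofNormedAddCommGroup_le _ hr0.le _)⟩
  have hΦ : ContractingWith (1 / 2) Φ := by
    refine ⟨by norm_num, LipschitzWith.of_dist_le_mul fun f f' => ?_⟩
    rw [Subtype.dist_eq]
    refine (dist_le (by positivity)).2 fun z => ?_
    change dist (φ f z) (φ f' z) ≤ _
    refine (dist_pi_le_iff (by positivity)).2 fun i => ?_
    have a1 := J_diff hg (W := W + 1) (d := ‖f.1 - f'.1‖) (by linarith) (norm_nonneg _) (Uc f')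
      (Uc f) (Ub f' (hS f')) (Ub f (hS f)) (fun t j => by
        have := Rb (f'.1 - f.1) t j
        rw [norm_sub_rev] at this
        convert this using 2 with z
        simp only [U, R, BoundedContinuousFunction.coe_sub, Pi.sub_apply]; ring) i z
    simp only [φ]
    rw [dist_eq_norm, ← sub_div, norm_div, Complex.norm_real, Real.norm_of_nonneg (wp z).le,
      div_le_iff₀ (wp z), neg_sub_neg, Subtype.dist_eq, dist_eq_norm]
    change _ ≤ _ * w z at a1
    push_cast
    linarith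
  have : CompleteSpace S := Metric.isClosed_closedBall.completeSpace_coe
  have : Nonempty S := ⟨⟨0, Metric.mem_closedBall_self hr0.le⟩⟩
  let f := hΦ.fixedPoint Φ
  have hf : Φ f = f := hΦ.fixedPoint_isFixedPt
  refine ⟨R f, Rc f, Rη f (hS f), fun i z => ?_⟩
  have h2 : f.1 z i = φ f z i := by
    conv_lhs => rw [← hf]
    rfl
  have h3 : (w z : ℂ) ≠ 0 := by exact_mod_cast (wp z).ne'
  change w z * f.1 z i = -J (B (U f) (U f) i) z
  rw [h2]
  simp only [φ]
  field_simp

end Pool.Agent.H.MP_2d1ae5_an
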