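import Pool.Agent.H.MP_e522c7_an.I

set_option autoImplicit false
open MeasureTheory Real Set Filter Topology

namespace Pool.Agent.H.MP_2d1ae5_an

open Pool.Agent.H.MP_e522c7_an

theorem n_int2 {w : X → ℝ} (hw : Integrable w) {c : ℝ} (hc : ∀ ξ, |w ξ| ≤ c) {n : E3 → ℝ}
    (hn : ∀ x, n x = ∫ ξ, cos (dot ξ x) * w ξ) (hcont : Continuous n) (h0 : ∀ x, 0 ≤ n x) :
    Integrable n ∧ ∫ x, n x ≤ exp 1 * (c * (2 * π) ^ 3) := by
  have hc0 : 0 ≤ c := (abs_nonneg _).trans (hc 0)
  have hb : ∀ x, ‖n x‖ ≤ ∫ ξ, ‖w ξ‖ := fun x => by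
    rw [hn]
    exact norm_integral_le_of_norm_le hw.norm (Eventually.of_forall fun ξ => cos_mul_le _ _)
  have key : ∀ s, 0 < s → ∫ x, exp (-(s * ‖x‖ ^ 2)) * n x ≤ c * (2 * π) ^ 3 := by
    intro s hs
    have h1 : Integrable (fun z : E3 × X => cos (dot z.2 z.1) * (exp (-(s * ‖z.1‖ ^ 2)) * w z.2))
        (volume.prod volume) :=
      ((gE_int hs).mul_prod hw).bdd_mul (c := 1) (Continuous.aestronglyMeasurable (by fun_prop))
        (Eventually.of_forall fun _ => abs_cos_le_one _)
    have e1 : ∀ x, exp (-(s * ‖x‖ ^ 2)) * n x =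
        ∫ ξ, cos (dot ξ x) * (exp (-(s * ‖x‖ ^ 2)) * w ξ) := by
      intro x; rw [hn, ← integral_const_mul]; congr 1; funext ξ; ring
    simp_rw [e1]
    rw [integral_integral_swap (f := fun x ξ => cos (dot ξ x) * (exp (-(s * ‖x‖ ^ 2)) * w ξ)) h1]
    have e2 : ∀ ξ, ∫ x : E3, cos (dot ξ x) * (exp (-(s * ‖x‖ ^ 2)) * w ξ) =
        w ξ * (√(π / s) ^ 3 * exp (-∑ i, 1 / (4 * s) * ξ i ^ 2)) := by
      intro ξ
      rw [← Finset.mul_sum, show 1 / (4 * s) * ∑ i, ξ i ^ 2 = q ξ / (4 * s) by rw [q]; ring,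
        ← gauss0 hs, ← integral_const_mul]
      congr 1; funext x; ring
    simp_rw [e2]
    have h4 : ∀ _i : Fin 3, 0 < 1 / (4 * s) := fun _ => by positivity
    have h5 := gaussX h4 0
    simp only [Pi.zero_apply, zero_mul, Finset.sum_const_zero, cos_zero, mul_one, ne_eq,
      OfNat.ofNat_ne_zero, not_false_eq_true, zero_pow, zero_div, neg_zero, exp_zero,
      Finset.prod_const, Finset.card_univ, Fintype.card_fin] at h5
    refine (Real.le_norm_self _).trans ((norm_integral_le_of_norm_le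
      (((gaussX_int h4).const_mul (√(π / s) ^ 3)).const_mul c)
      (Eventually.of_forall fun ξ => ?_)).trans (le_of_eq ?_))
    · rw [Real.norm_eq_abs, abs_mul, abs_of_nonneg (a := _ * _) (by positivity)]
      exact mul_le_mul_of_nonneg_right (hc ξ) (by positivity)
    · rw [integral_const_mul, integral_const_mul, h5, ← mul_pow, ← Real.sqrt_mul (by positivity),
        show π / s * (π / (1 / (4 * s))) = (2 * π) ^ 2 by field_simp; ring,
        Real.sqrt_sq (by positivity)]
  have hcov := aecover_closedBall (μ := (volume : Measure E3)) (x := (0 : E3)) (l := atTop)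
    (r := fun r : ℝ => r) tendsto_id
  suffices H : ∀ᶠ r : ℝ in atTop, ∫ x in Metric.closedBall (0 : E3) r, n x ≤
      exp 1 * (c * (2 * π) ^ 3) by
    have hi := hcov.integrable_of_integral_bounded_of_nonneg_ae (exp 1 * (c * (2 * π) ^ 3))
      (fun r => hcont.continuousOn.integrableOn_compact (isCompact_closedBall _ _))
      (Eventually.of_forall h0) H
    exact ⟨hi, le_of_tendsto (hcov.integral_tendsto_of_countably_generated hi) H⟩
  filter_upwards [eventually_gt_atTop 0] with r hr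
  have hs : 0 < 1 / r ^ 2 := by positivity
  have i1 : Integrable fun x => exp (-(1 / r ^ 2 * ‖x‖ ^ 2)) * n x :=
    (gE_int hs).mul_bdd hcont.aestronglyMeasurable (Eventually.of_forall hb)
  refine le_trans ?_ (mul_le_mul_of_nonneg_left (key _ hs) (Real.exp_pos 1).le)
  rw [← integral_const_mul]
  refine (setIntegral_mono_on (hcont.continuousOn.integrableOn_compact (isCompact_closedBall _ _))
    (i1.const_mul (exp 1)).integrableOn measurableSet_closedBall fun x hx => ?_).trans
    (setIntegral_le_integral (i1.const_mul _) (Eventually.of_forall fun x => by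
      have := h0 x; positivity))
  rw [← mul_assoc, ← Real.exp_add]
  refine le_mul_of_one_le_left (h0 x) (Real.one_le_exp ?_)
  have h1 : ‖x‖ ≤ r := by simpa using hx
  have h2 : 1 / r ^ 2 * ‖x‖ ^ 2 ≤ 1 := by
    rw [one_div, inv_mul_le_iff₀ (by positivity), mul_one]; gcongr
  linarith

end Pool.Agent.H.MP_2d1ae5_an
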