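import Pool.Agent.H.MP_2d1ae5_an.C
import Pool.Agent.H.MP_2d1ae5_an.N

set_option autoImplicit false
open MeasureTheory Set Filter Topology Complex ComplexConjugate

namespace Pool.Agent.H.MP_2d1ae5_an

open Pool.Agent.H.MP_e522c7_an (X q q_eq q_nonneg sq_le_q q_cont P P_pos P_le_one P_succ P_int
  abs_coord_le E3 dot dot_cont pr ft pr_apply ft_apply int_smul_sum dot_add dot_neg Cm)

def Dec (G : ℝ × X → ℂ) : Prop := ∀ k, ∃ c, ∀ t, Bd (P (k + 1)) t c G

def TD (G G' : ℝ × X → ℂ) : Prop :=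
  ∀ t ∈ Ioo (0 : ℝ) 1, ∀ ξ, HasDerivAt (fun s => G (s, ξ)) (G' (t, ξ)) t

def Sm : ℕ → (ℝ × X → ℂ) → Prop
  | 0, G => Dec G
  | n + 1, G => Dec G ∧ ∃ G', Sm n G' ∧ TD G G'

def Sym (σ : X → ℂ) : Prop := Measurable σ ∧ ∃ a, 0 ≤ a ∧ ∀ ξ, ‖σ ξ‖ ≤ a * (1 + q ξ)

variable {G H G' H' : ℝ × X → ℂ} {σ : X → ℂ} {n : ℕ}

lemma mP (k : ℕ) : Maj (Cm (k + 1) ^ 3) (P (k + 1)) := majP (by omega)

lemma Dec.add (hG : Dec G) (hH : Dec H) : Dec fun z => G z + H z := fun k => by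
  obtain ⟨a, ha⟩ := hG k
  obtain ⟨b, hb⟩ := hH k
  exact ⟨_, fun t => (ha t).add (hb t)⟩

lemma Dec.mul (hG : Dec G) (hσ : Sym σ) : Dec fun z => σ z.2 * G z := fun k => by
  obtain ⟨a, ha⟩ := hG (k + 1)
  obtain ⟨b, hb0, hb⟩ := hσ.2
  refine ⟨b * a, fun t => ⟨hσ.1.mul (ha t).1, fun ξ => ?_⟩⟩
  have h0 := (ha t).nonneg (mP _)
  have := q_nonneg ξ
  rw [norm_mul]
  calc _ ≤ (b * (1 + q ξ)) * (a * P (k + 1 + 1) ξ) := by
        gcongr
        exacts [hb ξ, (ha t).2 ξ]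
    _ = b * a * ((1 + q ξ) * P (k + 1 + 1) ξ) := by ring
    _ ≤ _ := mul_le_mul_of_nonneg_left (P_succ _ _) (by positivity)

lemma Dec.sy (hG : Dec G) : Dec (sy G) := fun k => by
  obtain ⟨a, ha⟩ := hG k
  exact ⟨_, fun t => (ha t).sy (mP k)⟩

lemma Dec.cv (hG : Dec G) (hH : Dec H) : Dec (cv G H) := fun k => by
  obtain ⟨a, ha⟩ := hG k
  obtain ⟨b, hb⟩ := hH k
  exact ⟨_, fun t => (ha t).cv (mP k) (hb t)⟩

lemma Dec.int (hG : Dec G) (t : ℝ) : Integrable fun ξ => G (t, ξ) := by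
  obtain ⟨a, ha⟩ := hG 0
  exact (ha t).int (mP 0)

lemma TD.sy (h : TD G G') : TD (sy G) (sy G') := fun t ht ξ =>
  ((h t ht ξ).fun_add (h t ht (-ξ)).star).div_const 2

lemma TD.cv (hG : Dec G) (hG' : Dec G') (hH : Dec H) (hH' : Dec H') (h1 : TD G G') (h2 : TD H H') :
    TD (cv G H) fun z => cv G' H z + cv G H' z := by
  intro t ht ξ
  obtain ⟨a, ha⟩ := hG 0
  obtain ⟨a', ha'⟩ := hG' 0
  obtain ⟨b, hb⟩ := hH 0
  obtain ⟨b', hb'⟩ := hH' 0
  have hh : ∀ {f h : ℝ × X → ℂ} {α β : ℝ}, (∀ t, Bd (P (0 + 1)) t α f) →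
      (∀ t, Bd (P (0 + 1)) t β h) → ∀ s η,
      ‖f (s, ξ - η) * h (s, η)‖ ≤ α * (β * P (0 + 1) η) := fun hf hh s η => by
    have h0 := (hf s).nonneg (mP 0)
    rw [norm_mul]
    exact mul_le_mul (((hf s).2 _).trans (mul_le_of_le_one_right h0 (P_le_one _ _))) ((hh s).2 _)
      (norm_nonneg _) h0
  have i1 := ((ha' t).cv_int (mP 0) (hb t) ξ).1
  have i2 := ((ha t).cv_int (mP 0) (hb' t) ξ).1
  have key := hasDerivAt_integral_of_dominated_loc_of_deriv_le (μ := (volume : Measure X))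
    (F := fun s η => G (s, ξ - η) * H (s, η))
    (F' := fun s η => G' (s, ξ - η) * H (s, η) + G (s, ξ - η) * H' (s, η))
    (bound := fun η => a' * (b * P (0 + 1) η) + a * (b' * P (0 + 1) η))
    (isOpen_Ioo.mem_nhds ht)
    (Eventually.of_forall fun s => ((ha s).cv_int (mP 0) (hb s) ξ).1.aestronglyMeasurable)
    ((ha t).cv_int (mP 0) (hb t) ξ).1 (i1.add i2).aestronglyMeasurable
    (Eventually.of_forall fun η s _ =>
      (norm_add_le _ _).trans (add_le_add (hh ha' hb s η) (hh ha hb' s η)))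
    ((((mP 0).int.const_mul _).const_mul _).add (((mP 0).int.const_mul _).const_mul _))
    (Eventually.of_forall fun η s hs => (h1 s hs (ξ - η)).fun_mul (h2 s hs η))
  have h3 := key.2
  rw [integral_add i1 i2] at h3
  exact h3

lemma Sm.dec (h : Sm n G) : Dec G := by
  cases n with
  | zero => exact h
  | succ n => exact h.1

lemma Sm.mono (h : Sm (n + 1) G) : Sm n G := by
  induction n generalizing G with
  | zero => exact h.1
  | succ n ih =>
    obtain ⟨h1, G', h2, h3⟩ := h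
    exact ⟨h1, G', ih h2, h3⟩

lemma Sm.add (hG : Sm n G) (hH : Sm n H) : Sm n fun z => G z + H z := by
  induction n generalizing G H with
  | zero => exact Dec.add hG hH
  | succ n ih =>
    obtain ⟨h1, G', h2, h3⟩ := hG
    obtain ⟨k1, H', k2, k3⟩ := hH
    exact ⟨h1.add k1, _, ih h2 k2, fun t ht ξ => (h3 t ht ξ).add (k3 t ht ξ)⟩

lemma Sm.mul (hG : Sm n G) (hσ : Sym σ) : Sm n fun z => σ z.2 * G z := by
  induction n generalizing G with
  | zero => exact Dec.mul hG hσ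
  | succ n ih =>
    obtain ⟨h1, G', h2, h3⟩ := hG
    exact ⟨h1.mul hσ, _, ih h2, fun t ht ξ => (h3 t ht ξ).const_mul (σ ξ)⟩

lemma Sm.sy (hG : Sm n G) : Sm n (sy G) := by
  induction n generalizing G with
  | zero => exact Dec.sy hG
  | succ n ih =>
    obtain ⟨h1, G', h2, h3⟩ := hG
    exact ⟨h1.sy, _, ih h2, h3.sy⟩

lemma Sm.cv (hG : Sm n G) (hH : Sm n H) : Sm n (cv G H) := by
  induction n generalizing G H with
  | zero => exact Dec.cv hG hH
  | succ n ih =>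
    have a1 := hG.mono
    have a2 := hH.mono
    obtain ⟨h1, G', h2, h3⟩ := hG
    obtain ⟨k1, H', k2, k3⟩ := hH
    exact ⟨h1.cv k1, _, (ih h2 a2).add (ih a1 k2), TD.cv h1 h2.dec k1 k2.dec h3 k3⟩

lemma Sm.sum {F : Fin 3 → ℝ × X → ℂ} (h : ∀ i, Sm n (F i)) : Sm n fun z => ∑ i, F i z := by
  simp only [Fin.sum_univ_three]
  exact ((h 0).add (h 1)).add (h 2)

lemma sym_of {a : ℂ} {r : X → ℝ} (h1 : Measurable r) (h2 : ∀ ξ, |r ξ| ≤ 1 + q ξ) :
    Sym fun ξ => a * r ξ :=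
  ⟨by fun_prop, ‖a‖, norm_nonneg _, fun ξ => by
    rw [norm_mul, Complex.norm_real]; exact mul_le_mul_of_nonneg_left (h2 ξ) (norm_nonneg _)⟩

lemma sym_c (a : ℂ) (i : Fin 3) : Sym fun ξ => a * (ξ i : ℝ) :=
  sym_of (measurable_pi_apply i) fun ξ => abs_coord_le ξ i

noncomputable def ex (x : E3) (ξ : X) : ℂ := cexp (I * (dot ξ x : ℝ))

lemma ex_norm (x : E3) (ξ : X) : ‖ex x ξ‖ = 1 := by
  unfold ex; rw [mul_comm]; exact norm_exp_ofReal_mul_I _

@[fun_prop] lemma ex_cont : Continuous fun z : E3 × X => ex z.1 z.2 := by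
  have := dot_cont
  unfold ex; fun_prop

noncomputable def FT (G : ℝ × X → ℂ) (z : ℝ × E3) : ℂ := ∫ ξ, ex z.2 ξ * G (z.1, ξ)

noncomputable def RF (G : ℝ × X → ℂ) (z : ℝ × E3) : ℝ := (FT G z).re

lemma ex_int {f : X → ℂ} (hf : Integrable f) (x : E3) : Integrable fun ξ => ex x ξ * f ξ :=
  hf.bdd_mul (c := 1) (Continuous.aestronglyMeasurable (by fun_prop))
    (Eventually.of_forall fun _ => (ex_norm _ _).le)

lemma RF_eq (hG : Dec G) (z : ℝ × E3) : Integrable (fun ξ => (ex z.2 ξ * G (z.1, ξ)).re) ∧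
    RF G z = ∫ ξ, (ex z.2 ξ * G (z.1, ξ)).re :=
  ⟨(ex_int (hG.int z.1) z.2).re, (reCLM.integral_comp_comm (ex_int (hG.int z.1) z.2)).symm⟩

lemma re_ex_le (x : E3) (ξ : X) (a : ℂ) : ‖(ex x ξ * a).re‖ ≤ ‖a‖ :=
  (abs_re_le_norm _).trans (by rw [norm_mul, ex_norm, one_mul])

lemma FT_le {g : X → ℝ} (hg : Integrable g) {z : ℝ × E3} (h : ∀ ξ, ‖G (z.1, ξ)‖ ≤ g ξ) :
    ‖FT G z‖ ≤ ∫ ξ, g ξ :=
  norm_integral_le_of_norm_le hg (Eventually.of_forall fun ξ => by
    rw [norm_mul, ex_norm, one_mul]; exact h ξ)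

lemma RF_bdd (hG : Dec G) : ∃ C, ∀ z, |RF G z| ≤ C := by
  obtain ⟨a, ha⟩ := hG 0
  exact ⟨_, fun z => (abs_re_le_norm _).trans (FT_le ((mP 0).int.const_mul a) (ha z.1).2)⟩

def U : Set (ℝ × E3) := Ioo (0 : ℝ) 1 ×ˢ univ

lemma U_open : IsOpen U := isOpen_Ioo.prod isOpen_univ

noncomputable def dx (i : Fin 3) (G : ℝ × X → ℂ) (z : ℝ × X) : ℂ := I * (z.2 i : ℝ) * G z

lemma RF_deriv (hG : Dec G) (hG' : Dec G') (hd : TD G G') {z : ℝ × E3} (hz : z ∈ U) :
    HasFDerivAt (RF G) (RF G' z • ft + ∑ i, RF (dx i G) z • pr i) z := by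
  obtain ⟨c, hc⟩ := hG' 0
  have hx : ∀ i, Dec (dx i G) := fun i => hG.mul (sym_c I i)
  choose e he using fun i => hx i 0
  obtain ⟨i3, i4⟩ := int_smul_sum (RF_eq hG' z).1 (fun i => (RF_eq (hx i) z).1) ft pr
  have key := hasFDerivAt_integral_of_dominated_of_fderiv_le (μ := (volume : Measure X))
    (F := fun (z : ℝ × E3) ξ => (ex z.2 ξ * G (z.1, ξ)).re)
    (F' := fun z ξ => (ex z.2 ξ * G' (z.1, ξ)).re • ft +
      ∑ i, (ex z.2 ξ * dx i G (z.1, ξ)).re • pr i)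
    (bound := fun ξ => c * P (0 + 1) ξ * ‖ft‖ + ∑ i, e i * P (0 + 1) ξ * ‖pr i‖)
    (U_open.mem_nhds hz)
    (Eventually.of_forall fun z => (RF_eq hG z).1.aestronglyMeasurable)
    (RF_eq hG z).1 i3.aestronglyMeasurable
    (Eventually.of_forall fun ξ z _ => by
      refine (norm_add_le _ _).trans (add_le_add ?_ ((norm_sum_le _ _).trans
        (Finset.sum_le_sum fun i _ => ?_)))
      · rw [norm_smul]
        exact mul_le_mul_of_nonneg_right ((re_ex_le _ _ _).trans ((hc z.1).2 ξ)) (norm_nonneg _)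
      · rw [norm_smul]
        exact mul_le_mul_of_nonneg_right ((re_ex_le _ _ _).trans ((he i z.1).2 ξ)) (norm_nonneg _))
    ((((mP 0).int.const_mul _).mul_const _).add
      (integrable_finsetSum _ fun i _ => ((mP 0).int.const_mul _).mul_const _))
    (Eventually.of_forall fun ξ z hz => by
      have d1 : HasFDerivAt (fun z : ℝ × E3 => dot ξ z.2) (∑ i, ξ i • pr i) z :=
        HasFDerivAt.fun_sum fun i _ => (pr i).hasFDerivAt.const_mul (ξ i)
      have d2 : HasFDerivAt (fun z : ℝ × E3 => G (z.1, ξ)) (ft.smulRight (G' (z.1, ξ))) z :=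
        (hd z.1 hz.1 ξ).hasFDerivAt.comp z (f := fun z : ℝ × E3 => z.1) ft.hasFDerivAt
      have d3 := ((ofRealCLM.hasFDerivAt.comp z d1).const_mul I).cexp
      refine (reCLM.hasFDerivAt.comp z (d3.fun_mul d2)).congr_fderiv ?_
      ext v
      · simp [ex]
      · simp [ex, dx, Fin.sum_univ_three]; ring)
  rw [i4] at key
  simp_rw [← (RF_eq hG' _).2, ← (RF_eq (hx _) _).2] at key
  rwa [show RF G = _ from funext fun z => (RF_eq hG z).2]

lemma RF_smooth (h : Sm (n + 1) G) : ContDiffOn ℝ n (RF G) U := by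
  induction n generalizing G with
  | zero =>
    obtain ⟨h1, G', h2, h3⟩ := h
    exact contDiffOn_zero.2 fun z hz => (RF_deriv h1 h2 h3 hz).continuousAt.continuousWithinAt
  | succ n ih =>
    have a1 := h.mono
    obtain ⟨h1, G', h2, h3⟩ := h
    rw [Nat.cast_succ, contDiffOn_succ_iff_fderiv_of_isOpen U_open]
    refine ⟨fun z hz => (RF_deriv h1 h2.dec h3 hz).differentiableAt.differentiableWithinAt,
      by simp, ContDiffOn.congr ?_ fun z hz => (RF_deriv h1 h2.dec h3 hz).fderiv⟩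
    exact ((ih h2).smul contDiffOn_const).add
      (ContDiffOn.sum fun i _ => (ih (a1.mul (sym_c I i))).smul contDiffOn_const)

lemma RF_dt (hG : Dec G) (hG' : Dec G') (hd : TD G G') {t : ℝ} (ht : t ∈ Ioo (0 : ℝ) 1) (x : E3) :
    HasDerivAt (fun s => RF G (s, x)) (RF G' (t, x)) t := by
  have h1 := RF_deriv hG hG' hd (z := (t, x)) ⟨ht, trivial⟩
  have h2 : HasDerivAt (fun s : ℝ => (s, x)) (1, 0) t :=
    (hasDerivAt_id t).prodMk (hasDerivAt_const t x)
  refine (h1.comp_hasDerivAt t h2).congr_deriv ?_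
  simp

lemma RF_dx (h : Sm 1 G) {t : ℝ} (ht : t ∈ Ioo (0 : ℝ) 1) (x : E3) :
    HasFDerivAt (fun y => RF G (t, y))
      (∑ i, RF (dx i G) (t, x) • (EuclideanSpace.proj i : E3 →L[ℝ] ℝ)) x := by
  obtain ⟨h1, G', h2, h3⟩ := h
  have h1 := RF_deriv h1 h2 h3 (z := (t, x)) ⟨ht, trivial⟩
  refine (h1.comp x (hasFDerivAt_prodMk_right t x)).congr_fderiv ?_
  ext v
  simp

lemma FT_cv (hG : Dec G) (hH : Dec H) (z : ℝ × E3) : FT (cv G H) z = FT G z * FT H z := by
  have h1 : Integrable (fun w : X × X => G (z.1, w.1 - w.2) * H (z.1, w.2)) (volume.prod volume) := by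
    have := (hH.int z.1).convolution_integrand (ContinuousLinearMap.mul ℝ ℂ) (hG.int z.1)
    simpa [mul_comm] using this
  have h2 : Integrable (fun w : X × X => ex z.2 w.1 * (G (z.1, w.1 - w.2) * H (z.1, w.2)))
      (volume.prod volume) :=
    h1.bdd_mul (c := 1) (Continuous.aestronglyMeasurable (by fun_prop))
      (Eventually.of_forall fun _ => (ex_norm _ _).le)
  unfold FT cv
  simp_rw [← integral_const_mul]
  rw [integral_integral_swap (f := fun ξ η => ex z.2 ξ * (G (z.1, ξ - η) * H (z.1, η))) h2]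
  congr 1; funext η
  rw [← integral_add_right_eq_self _ η, ← integral_mul_const]
  congr 1; funext ξ
  unfold ex
  rw [dot_add, add_sub_cancel_right, ofReal_add, mul_add, Complex.exp_add]; ring

lemma FT_sy (hG : Dec G) (z : ℝ × E3) : FT (sy G) z = RF G z := by
  have i1 := ex_int (hG.int z.1) z.2
  have e : ∀ ξ, ex z.2 ξ * conj (G (z.1, -ξ)) = conj (ex z.2 (-ξ) * G (z.1, -ξ)) := by
    intro ξ
    unfold ex
    rw [map_mul, ← Complex.exp_conj, dot_neg]; simp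
  have i2 : Integrable fun ξ => ex z.2 ξ * conj (G (z.1, -ξ)) := by
    simp_rw [e]; exact (conjCLE.toContinuousLinearMap.integrable_comp i1).comp_neg
  unfold RF FT sy
  simp_rw [← mul_div_assoc, mul_add]
  rw [integral_div, integral_add i1 i2]
  simp_rw [e]
  rw [integral_neg_eq_self (fun ξ => conj (ex z.2 ξ * G (z.1, ξ))), integral_conj, Complex.add_conj]
  push_cast; ring

lemma RF_cv (hG : Dec G) (hH : Dec H) (z : ℝ × E3) :
    RF (cv (sy G) (sy H)) z = RF G z * RF H z := by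
  rw [RF, FT_cv hG.sy hH.sy, FT_sy hG, FT_sy hH, ← ofReal_mul, ofReal_re]

lemma RF_add (hG : Dec G) (hH : Dec H) (z : ℝ × E3) :
    RF (fun w => G w + H w) z = RF G z + RF H z := by
  unfold RF FT
  simp_rw [mul_add]
  rw [integral_add (ex_int (hG.int _) _) (ex_int (hH.int _) _), add_re]

lemma RF_sum {F : Fin 3 → ℝ × X → ℂ} (h : ∀ i, Dec (F i)) (z : ℝ × E3) :
    RF (fun w => ∑ i, F i w) z = ∑ i, RF (F i) z := by
  simp only [Fin.sum_univ_three]
  rw [RF_add ((h 0).add (h 1)) (h 2), RF_add (h 0) (h 1)]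

lemma RF_L2 (hG : Dec G) : ∃ K, ∀ t, Integrable (fun x => RF G (t, x) ^ 2) ∧
    ∫ x, RF G (t, x) ^ 2 ≤ K := by
  have hC := hG.sy.cv hG.sy
  obtain ⟨c, hc⟩ := hC 0
  refine ⟨Real.exp 1 * (2 * c * (2 * Real.pi) ^ 3), fun t => ?_⟩
  have c1 : Continuous fun x => RF G (t, x) := by
    refine continuous_re.comp (continuous_of_dominated (bound := fun ξ => ‖G (t, ξ)‖)
      (fun x => (ex_int (hG.int t) x).aestronglyMeasurable)
      (fun x => Eventually.of_forall fun ξ => ?_) (hG.int t).norm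
      (Eventually.of_forall fun ξ => by simp only; fun_prop))
    rw [norm_mul, ex_norm, one_mul]
  obtain ⟨a1, a2⟩ := n_int2 (w := fun ξ => 2 * (cv (sy G) (sy G) (t, ξ)).re) (c := 2 * c)
    (n := fun x => RF G (t, x) ^ 2 + RF G (t, -x) ^ 2) ((hC.int t).re.const_mul 2)
    (fun ξ => by
      rw [abs_mul, abs_two]
      have := ((hc t).2 ξ).trans (mul_le_of_le_one_right ((hc t).nonneg (mP 0)) (P_le_one _ _))
      linarith [abs_re_le_norm (cv (sy G) (sy G) (t, ξ))])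
    (fun x => by
      rw [sq, sq, ← RF_cv hG hG, ← RF_cv hG hG, (RF_eq hC _).2, (RF_eq hC _).2,
        ← integral_add (RF_eq hC _).1 (RF_eq hC _).1]
      congr 1; funext ξ
      have h2 : dot ξ (-x) = -dot ξ x := by simp [dot]
      simp only [ex, h2, mul_comm I, mul_re, exp_ofReal_mul_I_re, exp_ofReal_mul_I_im,
        Real.cos_neg, Real.sin_neg]
      ring)
    ((c1.pow 2).add ((c1.comp continuous_neg).pow 2)) (fun x => by positivity)
  have hb : ∀ x, RF G (t, x) ^ 2 ≤ RF G (t, x) ^ 2 + RF G (t, -x) ^ 2 := fun x => by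
    nlinarith [sq_nonneg (RF G (t, -x))]
  have i1 : Integrable fun x => RF G (t, x) ^ 2 :=
    a1.mono' (Continuous.aestronglyMeasurable (by fun_prop)) (Eventually.of_forall fun x => by
      rw [Real.norm_of_nonneg (sq_nonneg _)]; exact hb x)
  exact ⟨i1, (integral_mono i1 a1 hb).trans a2⟩

end Pool.Agent.H.MP_2d1ae5_an
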