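import Pool.Agent.H.MP_2d1ae5_an.D

set_option autoImplicit false
open MeasureTheory Set Filter Topology Complex ComplexConjugate

namespace Pool.Agent.H.MP_2d1ae5_an

open Pool.Agent.H.MP_e522c7_an (X q q_eq q_nonneg sq_le_q q_cont P E3 dot)

def IsSol (v : ℝ → E3 → E3) (p : ℝ → E3 → ℝ) : Prop :=
  ContDiffOn ℝ (⊤ : ℕ∞) (Function.uncurry v) (Set.Ioo (-1 : ℝ) 0 ×ˢ Set.univ) ∧
  ContDiffOn ℝ (⊤ : ℕ∞) (Function.uncurry p) (Set.Ioo (-1 : ℝ) 0 ×ˢ Set.univ) ∧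
  (∀ s ∈ Set.Ioo (-1 : ℝ) 0, ∀ x : E3,
      deriv (fun τ => v τ x) s + fderiv ℝ (v s) x (v s x)
        - ∑ i : Fin 3, fderiv ℝ (fun y => fderiv ℝ (v s) y (EuclideanSpace.basisFun (Fin 3) ℝ i)) x
            (EuclideanSpace.basisFun (Fin 3) ℝ i)
        + gradient (p s) x = 0) ∧
  (∀ s ∈ Set.Ioo (-1 : ℝ) 0, ∀ x : E3,
      LinearMap.trace ℝ E3 (fderiv ℝ (v s) x).toLinearMap = 0) ∧
  (∃ K : ℝ, ∀ s ∈ Set.Ioo (-1 : ℝ) 0, ∫⁻ x, ‖v s x‖ₑ ^ 2 ≤ ENNReal.ofReal K) ∧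
  (∫⁻ s in Set.Ioo (-1 : ℝ) 0, ∫⁻ x, ‖fderiv ℝ (v s) x‖ₑ ^ 2) < ⊤

lemma IsSol.shift {v : ℝ → E3 → E3} {p : ℝ → E3 → ℝ} (h : IsSol v p) (a : E3) :
    IsSol (fun s x => v s (x + a)) (fun s x => p s (x + a)) := by
  obtain ⟨h1, h2, h3, h4, ⟨K, h5⟩, h6⟩ := h
  have hm : MapsTo (fun z : ℝ × E3 => (z.1, z.2 + a)) (Set.Ioo (-1 : ℝ) 0 ×ˢ Set.univ)
    (Set.Ioo (-1 : ℝ) 0 ×ˢ Set.univ) := fun z hz => ⟨hz.1, trivial⟩
  refine ⟨h1.comp (f := fun z : ℝ × E3 => (z.1, z.2 + a)) (by fun_prop) hm,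
    h2.comp (f := fun z : ℝ × E3 => (z.1, z.2 + a)) (by fun_prop) hm, fun s hs x => ?_,
    fun s hs x => ?_, ⟨K, fun s hs => ?_⟩, ?_⟩
  · have := h3 s hs (x + a)
    unfold gradient at *
    simp only [fderiv_comp_add_right]
    have e : ∀ w : E3, fderiv ℝ (fun y => fderiv ℝ (v s) (y + a) w) x =
        fderiv ℝ (fun y => fderiv ℝ (v s) y w) (x + a) := fun w =>
      fderiv_comp_add_right (f := fun y => fderiv ℝ (v s) y w) a
    simp only [e]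
    exact this
  · simp only [fderiv_comp_add_right]; exact h4 s hs _
  · rw [lintegral_add_right_eq_self (fun x => ‖v s x‖ₑ ^ 2)]; exact h5 s hs
  · simp only [fderiv_comp_add_right]
    have e : ∀ s, ∫⁻ x, ‖fderiv ℝ (v s) (x + a)‖ₑ ^ 2 = ∫⁻ x, ‖fderiv ℝ (v s) x‖ₑ ^ 2 := fun s =>
      lintegral_add_right_eq_self (fun x => ‖fderiv ℝ (v s) x‖ₑ ^ 2) a
    simp only [e]; exact h6

noncomputable def vv (F : Fin 3 → ℝ × X → ℂ) (t : ℝ) (x : E3) : E3 :=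
  ∑ i, RF (F i) (t, x) • EuclideanSpace.single i (1 : ℝ)

lemma vv_apply (F : Fin 3 → ℝ × X → ℂ) (t : ℝ) (x : E3) (i : Fin 3) :
    vv F t x i = RF (F i) (t, x) := by
  simp [vv, Pi.single_apply]

noncomputable def DD (F : Fin 3 → ℝ × X → ℂ) (t : ℝ) (x : E3) : E3 →L[ℝ] E3 :=
  ∑ i, (∑ j, RF (dx j (F i)) (t, x) • (EuclideanSpace.proj j : E3 →L[ℝ] ℝ)).smulRight
    (EuclideanSpace.single i (1 : ℝ))

lemma DD_apply (F : Fin 3 → ℝ × X → ℂ) (t : ℝ) (x y : E3) (i : Fin 3) :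
    DD F t x y i = ∑ j, RF (dx j (F i)) (t, x) * y j := by
  simp [DD, Pi.single_apply]

lemma vv_deriv {F : Fin 3 → ℝ × X → ℂ} (h : ∀ i, Sm 1 (F i)) {t : ℝ} (ht : t ∈ Ioo (0 : ℝ) 1)
    (x : E3) : HasFDerivAt (vv F t) (DD F t x) x :=
  HasFDerivAt.fun_sum fun i _ => (RF_dx (h i) ht x).smul_const _

lemma DD_norm (F : Fin 3 → ℝ × X → ℂ) (t : ℝ) (x : E3) :
    ‖DD F t x‖ ^ 2 ≤ ∑ i, ∑ j, RF (dx j (F i)) (t, x) ^ 2 := by
  have h0 : 0 ≤ ∑ i, ∑ j, RF (dx j (F i)) (t, x) ^ 2 := by positivity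
  rw [← Real.le_sqrt (norm_nonneg _) h0]
  refine ContinuousLinearMap.opNorm_le_bound _ (Real.sqrt_nonneg _) fun y => ?_
  rw [← Real.sqrt_sq (norm_nonneg y), ← Real.sqrt_mul h0, Real.le_sqrt (norm_nonneg _)
    (by positivity), EuclideanSpace.real_norm_sq_eq, EuclideanSpace.real_norm_sq_eq,
    Finset.sum_mul]
  refine Finset.sum_le_sum fun i _ => ?_
  rw [DD_apply]
  exact Finset.sum_mul_sq_le_sq_mul_sq _ _ _

lemma lint_le {G : Type} [NormedAddCommGroup G] {f : E3 → G} {h : E3 → ℝ} {K : ℝ}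
    (h1 : ∀ x, ‖f x‖ ^ 2 ≤ h x) (h2 : Integrable h) (h3 : ∫ x, h x ≤ K) :
    ∫⁻ x, ‖f x‖ₑ ^ 2 ≤ ENNReal.ofReal K := by
  refine le_trans ?_ (ENNReal.ofReal_le_ofReal h3)
  rw [ofReal_integral_eq_lintegral_ofReal h2 (Eventually.of_forall fun x =>
    (sq_nonneg _).trans (h1 x))]
  refine lintegral_mono fun x => ?_
  rw [← ofReal_norm, ← ENNReal.ofReal_pow (norm_nonneg _)]
  exact ENNReal.ofReal_le_ofReal (h1 x)

lemma sum_L2 {F : Fin 3 → ℝ × X → ℂ} (h : ∀ i, Dec (F i)) : ∃ K, ∀ t,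
    Integrable (fun x => ∑ i, RF (F i) (t, x) ^ 2) ∧ ∫ x, ∑ i, RF (F i) (t, x) ^ 2 ≤ K := by
  choose K hK using fun i => RF_L2 (h i)
  refine ⟨∑ i, K i, fun t => ⟨integrable_finsetSum _ fun i _ => (hK i t).1, ?_⟩⟩
  rw [integral_finsetSum _ fun i _ => (hK i t).1]
  exact Finset.sum_le_sum fun i _ => (hK i t).2

noncomputable def CC (V : Fin 3 → ℝ × X → ℂ) (j k : Fin 3) : ℝ × X → ℂ := cv (sy (V j)) (sy (V k))

noncomputable def Pr (V : Fin 3 → ℝ × X → ℂ) (z : ℝ × X) : ℂ :=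
  ∑ k, ∑ j, -1 * (ρ j k z.2 : ℝ) * CC V j k z

lemma B_eq (V : Fin 3 → ℝ × X → ℂ) (i : Fin 3) (z : ℝ × X) :
    B V V i z = ∑ j, dx j (CC V j i) z + dx i (Pr V) z := by
  simp only [B, T, CC, Pr, dx, ρ, Fin.sum_univ_three]
  push_cast
  ring

lemma Sm.dx {n : ℕ} {G : ℝ × X → ℂ} (h : Sm n G) (i : Fin 3) : Sm n (dx i G) := h.mul (sym_c I i)

lemma Sm.CC {n : ℕ} {V : Fin 3 → ℝ × X → ℂ} (h : ∀ i, Sm n (V i)) (j k : Fin 3) :
    Sm n (CC V j k) := (h j).sy.cv (h k).sy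

lemma Sm.Pr {n : ℕ} {V : Fin 3 → ℝ × X → ℂ} (h : ∀ i, Sm n (V i)) : Sm n (Pr V) :=
  Sm.sum fun k => Sm.sum fun j => (Sm.CC h j k).mul (sym_of (ρ_meas j k) fun ξ =>
    (ρ_le j k ξ).trans (by linarith [q_nonneg ξ]))

noncomputable def Vd (V : Fin 3 → ℝ × X → ℂ) (i : Fin 3) (z : ℝ × X) : ℂ :=
  -(q z.2 : ℝ) * V i z - B V V i z

lemma Vd_eq (V : Fin 3 → ℝ × X → ℂ) (i : Fin 3) : Vd V i = fun z => ∑ j, dx j (dx j (V i)) z +
    -1 * ((fun _ => 1 : X → ℝ) z.2 : ℝ) * (∑ j, dx j (CC V j i) z + dx i (Pr V) z) := by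
  funext z
  rw [Vd, B_eq, q_eq]
  simp only [dx, Fin.sum_univ_three]
  push_cast
  linear_combination (-(z.2 0 : ℂ) ^ 2 - (z.2 1 : ℂ) ^ 2 - (z.2 2 : ℂ) ^ 2) * V i z * I_mul_I

lemma Sm.Vd {n : ℕ} {V : Fin 3 → ℝ × X → ℂ} (h : ∀ i, Sm n (V i)) (i : Fin 3) :
    Sm n (Vd V i) := by
  rw [Vd_eq]
  exact (Sm.sum fun j => ((h i).dx j).dx j).add (((Sm.sum fun j => (Sm.CC h j i).dx j).add
    ((Sm.Pr h).dx i)).mul (sym_of measurable_const fun ξ => by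
      rw [abs_one]; linarith [q_nonneg ξ]))

theorem phys {V : Fin 3 → ℝ × X → ℂ} (h0 : ∀ i, Dec (V i)) (h1 : ∀ i, TD (V i) (Vd V i))
    (h2 : ∀ z : ℝ × X, ∑ i, z.2 i * V i z = 0) :
    IsSol (fun s => vv V (s + 1)) (fun s x => RF (Pr V) (s + 1, x)) ∧
      ∃ D, ∀ t ∈ Ioo (0 : ℝ) 1, ∀ x y, ‖vv V t x - vv V t y‖ ≤ D * ‖x - y‖ := by
  have hS : ∀ n i, Sm n (V i) := by
    intro n
    induction n with
    | zero => exact h0
    | succ n ih => exact fun i => ⟨h0 i, _, Sm.Vd ih i, h1 i⟩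
  have hm : MapsTo (fun z : ℝ × E3 => (z.1 + 1, z.2)) (Set.Ioo (-1 : ℝ) 0 ×ˢ Set.univ) U :=
    fun z hz => ⟨⟨by linarith [hz.1.1], by linarith [hz.1.2]⟩, trivial⟩
  have hsm : ∀ {G}, (∀ n, Sm n G) → ContDiffOn ℝ (⊤ : ℕ∞) (fun z : ℝ × E3 => RF G (z.1 + 1, z.2))
      (Set.Ioo (-1 : ℝ) 0 ×ˢ Set.univ) := fun h => contDiffOn_infty.2 fun n =>
    (RF_smooth (h _)).comp (f := fun z : ℝ × E3 => (z.1 + 1, z.2)) (by fun_prop) hm
  have ht : ∀ {s}, s ∈ Ioo (-1 : ℝ) 0 → s + 1 ∈ Ioo (0 : ℝ) 1 :=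
    fun hs => ⟨by linarith [hs.1], by linarith [hs.2]⟩
  have hdiv : ∀ z, ∑ i, RF (dx i (V i)) z = 0 := fun z => by
    rw [← RF_sum fun i => ((hS 0 i).dx i).dec]
    have : (fun w => ∑ i, dx i (V i) w) = fun _ => 0 := by
      funext w
      simp only [dx, mul_assoc]
      rw [← Finset.mul_sum, h2, mul_zero]
    rw [this]; simp [RF, FT]
  obtain ⟨K, hK⟩ := sum_L2 h0
  choose K' hK' using fun i => sum_L2 (F := fun j => dx j (V i)) fun j => ((hS 0 i).dx j).dec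
  choose D hD using fun i j => RF_bdd ((hS 0 i).dx j).dec
  have hv : ContDiffOn ℝ (⊤ : ℕ∞) (fun z : ℝ × E3 => ∑ i, RF (V i) (z.1 + 1, z.2) •
      (EuclideanSpace.single i (1 : ℝ) : E3)) (Set.Ioo (-1 : ℝ) 0 ×ˢ Set.univ) :=
    ContDiffOn.sum fun i _ => (hsm fun n => hS n i).smul contDiffOn_const
  refine ⟨⟨hv,
    hsm fun n => Sm.Pr (hS n), fun s hs x => ?_, fun s hs x => ?_, ⟨K, fun s hs => ?_⟩, ?_⟩,
    √(∑ i, ∑ j, D i j ^ 2), fun t ht x y => ?_⟩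
  · have t1 := ht hs
    have e1 : HasDerivAt (fun τ => vv V (τ + 1) x) (vv (Vd V) (s + 1) x) s :=
      HasDerivAt.fun_sum fun i _ => ((RF_dt (h0 i) (Sm.Vd (hS 0) i).dec (h1 i) t1 x).comp_add_const
        s 1).smul_const _
    have e2 : ∀ j, (fun y => fderiv ℝ (vv V (s + 1)) y (EuclideanSpace.basisFun (Fin 3) ℝ j)) =
        vv (fun i => dx j (V i)) (s + 1) := by
      intro j; funext y; ext i
      rw [(vv_deriv (hS 1) t1 y).fderiv, DD_apply, vv_apply]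
      simp
    have e3 : gradient (fun x => RF (Pr V) (s + 1, x)) x = vv (fun i => dx i (Pr V)) (s + 1) x := by
      apply HasGradientAt.gradient
      rw [hasGradientAt_iff_hasFDerivAt]
      refine (RF_dx (Sm.Pr (hS 1)) t1 x).congr_fderiv ?_
      ext y
      simp [PiLp.inner_apply, vv_apply, mul_comm]
    have e4 : ∀ i j, RF (dx j (CC V j i)) (s + 1, x) = RF (V j) (s + 1, x) *
        RF (dx j (V i)) (s + 1, x) + RF (V i) (s + 1, x) * RF (dx j (V j)) (s + 1, x) := by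
      intro i j
      have a1 := RF_dx (Sm.CC (hS 1) j i) t1 x
      simp only [CC, RF_cv (h0 j) (h0 i)] at a1
      have a2 := congrArg (fun L : E3 →L[ℝ] ℝ => L (EuclideanSpace.single j 1))
        (a1.unique ((RF_dx (hS 1 j) t1 x).fun_mul (RF_dx (hS 1 i) t1 x)))
      simpa [Pi.single_apply, CC] using a2
    have e5 : ∀ i, RF (Vd V i) (s + 1, x) + (∑ j, RF (dx j (CC V j i)) (s + 1, x) +
        RF (dx i (Pr V)) (s + 1, x)) = ∑ j, RF (dx j (dx j (V i))) (s + 1, x) := by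
      intro i
      have b1 : ∀ j, Sm 0 (dx j (CC V j i)) := fun j => (Sm.CC (hS 0) j i).dx j
      rw [← RF_sum b1, ← RF_add (Sm.sum b1) ((Sm.Pr (hS 0)).dx i),
        ← RF_add (Sm.Vd (hS 0) i) ((Sm.sum b1).add ((Sm.Pr (hS 0)).dx i)),
        ← RF_sum fun j => (((hS 0 i).dx j).dx j).dec]
      congr 1; funext z
      rw [Vd_eq]; simp only [ofReal_one]; ring
    simp only [e2, e3, e1.deriv, (vv_deriv (hS 1) t1 x).fderiv,
      fun j => (vv_deriv (fun i => (hS 1 i).dx j) t1 x).fderiv]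
    ext i
    have a3 := e5 i
    have a4 := hdiv (s + 1, x)
    simp only [e4, Fin.sum_univ_three] at a3 a4
    simp [DD_apply, vv_apply, Fin.sum_univ_three]
    linear_combination a3 - RF (V i) (s + 1, x) * a4
  · rw [(vv_deriv (hS 1) (ht hs) x).fderiv,
      LinearMap.trace_eq_sum_inner _ (EuclideanSpace.basisFun (Fin 3) ℝ), ← hdiv (s + 1, x)]
    refine Finset.sum_congr rfl fun i _ => ?_
    simp [EuclideanSpace.inner_single_left, DD_apply]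
  · refine lint_le (fun x => le_of_eq ?_) (hK _).1 (hK (s + 1)).2
    simp only [EuclideanSpace.real_norm_sq_eq, vv_apply]
  · refine lt_of_le_of_lt (setLIntegral_mono' (g := fun _ => ENNReal.ofReal (∑ i, K' i))
      measurableSet_Ioo fun s hs => ?_) (by simp)
    refine lint_le (fun x => ?_) (integrable_finsetSum Finset.univ fun i _ => (hK' i (s + 1)).1) ?_
    · rw [(vv_deriv (hS 1) (ht hs) x).fderiv]; exact DD_norm _ _ _
    · rw [integral_finsetSum _ fun i _ => (hK' i _).1]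
      exact Finset.sum_le_sum fun i _ => (hK' i _).2
  · refine convex_univ.norm_image_sub_le_of_norm_hasFDerivWithin_le (f' := DD V t)
      (fun x _ => (vv_deriv (hS 1) ht x).hasFDerivWithinAt) (fun x _ => ?_) trivial trivial
    refine Real.le_sqrt_of_sq_le ((DD_norm _ _ _).trans (Finset.sum_le_sum fun i _ =>
      Finset.sum_le_sum fun j _ => ?_))
    exact sq_le_sq' (abs_le.1 (hD i j _)).1 (abs_le.1 (hD i j _)).2

end Pool.Agent.H.MP_2d1ae5_an
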