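import Pool.Agent.H.MP_2d1ae5_an.E
import Pool.Agent.H.MP_2d1ae5_an.A

set_option autoImplicit false
open MeasureTheory Set Filter Topology Complex ComplexConjugate BoundedContinuousFunction

namespace Pool.Agent.H.MP_2d1ae5_an

open Pool.Agent.H.MP_e522c7_an (X q q_eq q_nonneg sq_le_q q_cont P p p_pos E3 dot Cm Cm_pos)

noncomputable def Ga (L s : ℝ) : ℝ := L * Real.exp (-(L * s) ^ 2)

lemma Ga_pos {L : ℝ} (hL : 0 < L) (s : ℝ) : 0 < Ga L s := mul_pos hL (Real.exp_pos _)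

@[fun_prop] lemma Ga_cont (L : ℝ) : Continuous (Ga L) := by unfold Ga; fun_prop

lemma Ga_le {L : ℝ} (hL : 0 < L) (s : ℝ) : (1 + |L * s|) ^ 2 * Ga L s ≤ Real.exp 7 * μ L s := by
  unfold Ga μ p
  generalize L * s = u
  have h1 : 1 + |u| ≤ Real.exp |u| := by linarith [Real.add_one_le_exp |u|]
  have h2 : (1 + |u|) ^ 2 ≤ Real.exp |u| ^ 2 := by gcongr
  have h3 : 1 + u ^ 2 ≤ Real.exp |u| ^ 2 := by nlinarith [sq_abs u, abs_nonneg u]
  have h4 : Real.exp |u| ^ 2 * Real.exp |u| ^ 2 * Real.exp (-u ^ 2) ≤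
      Real.exp 7 * Real.exp (-|u|) := by
    rw [← Real.exp_nat_mul, ← Real.exp_add, ← Real.exp_add, ← Real.exp_add]
    apply Real.exp_le_exp.2
    push_cast
    nlinarith [sq_abs u, sq_nonneg (|u| - 5 / 2)]
  have h5 : (1 + |u|) ^ 2 * (1 + u ^ 2) * Real.exp (-u ^ 2) ≤ Real.exp 7 * Real.exp (-|u|) :=
    le_trans (by gcongr) h4
  rw [pow_one, ← div_eq_mul_inv, ← mul_div_assoc, ← mul_div_assoc, le_div_iff₀ (by positivity)]
  nlinarith [mul_le_mul_of_nonneg_left h5 hL.le]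

lemma Ga_int {L : ℝ} (hL : 0 < L) (y : ℝ) : ∫ s : ℝ, cexp (I * y * s) * (Ga L s : ℝ) =
    (√Real.pi * Real.exp (-(y ^ 2 / (4 * L ^ 2))) : ℝ) := by
  have h := fourierIntegral_gaussian (b := (L ^ 2 : ℝ)) (by rw [ofReal_re]; positivity) y
  have e : ∀ s : ℝ, cexp (I * y * s) * (Ga L s : ℝ) =
      L * (cexp (I * y * s) * cexp (-((L ^ 2 : ℝ) : ℂ) * s ^ 2)) := by
    intro s; unfold Ga; push_cast; ring_nf
  simp_rw [e]
  rw [integral_const_mul, h]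
  have e2 : ((Real.pi : ℂ) / (L ^ 2 : ℝ)) ^ (1 / 2 : ℂ) = (√Real.pi / L : ℝ) := by
    rw [← Real.sqrt_sq hL.le, ← Real.sqrt_div Real.pi_pos.le, Real.sqrt_sq hL.le,
      Real.sqrt_eq_rpow, Complex.ofReal_cpow (by have := Real.pi_pos; positivity)]
    push_cast; rfl
  have : (L : ℂ) ≠ 0 := by exact_mod_cast hL.ne'
  rw [e2]; push_cast
  rw [neg_div]; field_simp

noncomputable def om (L : ℝ) (ξ : X) : ℝ :=
  (1 + |ξ 0|) ^ 2 * (1 + |L * ξ 1|) ^ 2 * (1 + |L * ξ 2|) ^ 2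

noncomputable def φ0 (a : ℝ →ᵇ ℂ) (L : ℝ) (ξ : X) : ℂ :=
  a (ξ 0) * (Ga 1 (ξ 0) * Ga L (ξ 1) * Ga L (ξ 2) : ℝ)

lemma φ0_le (a : ℝ →ᵇ ℂ) {L : ℝ} (hL : 0 < L) (ξ : X) :
    om L ξ * ‖φ0 a L ξ‖ ≤ ‖a‖ * Real.exp 7 ^ 3 * m L ξ := by
  have h0 := Ga_le one_pos (ξ 0)
  have h1 := Ga_le hL (ξ 1)
  have h2 := Ga_le hL (ξ 2)
  have g0 := Ga_pos one_pos (ξ 0)
  have g1 := Ga_pos hL (ξ 1)
  have g2 := Ga_pos hL (ξ 2)
  have m0 := μ_pos one_pos (ξ 0)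
  have m1 := μ_pos hL (ξ 1)
  rw [one_mul] at h0
  rw [φ0, norm_mul, Complex.norm_real, Real.norm_of_nonneg (by positivity)]
  calc _ = ‖a (ξ 0)‖ * (((1 + |ξ 0|) ^ 2 * Ga 1 (ξ 0)) * ((1 + |L * ξ 1|) ^ 2 * Ga L (ξ 1)) *
        ((1 + |L * ξ 2|) ^ 2 * Ga L (ξ 2))) := by unfold om; ring
    _ ≤ ‖a‖ * ((Real.exp 7 * μ 1 (ξ 0)) * (Real.exp 7 * μ L (ξ 1)) * (Real.exp 7 * μ L (ξ 2))) := by
        gcongr; exact a.norm_coe_le_norm _
    _ = _ := by simp [m, sc, Fin.prod_univ_three]; ring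

def vec (j : Fin 3) (ξ : X) : ℝ := ![-ξ 2, 0, ξ 0] j

lemma vec_cont (j : Fin 3) : Continuous (vec j) := by
  unfold vec; fun_prop

lemma vec_neg (j : Fin 3) (ξ : X) : vec j (-ξ) = -vec j ξ := by
  fin_cases j <;> simp [vec]

lemma vec_le (j : Fin 3) (ξ : X) : |vec j ξ| ≤ |ξ 0| + |ξ 2| := by
  fin_cases j <;> simp [vec]
  positivity

lemma om_facts {L : ℝ} (hL : 1 ≤ L) (ξ : X) : 1 ≤ om L ξ ∧ L * |ξ 2| ≤ om L ξ ∧
    |ξ 0| ≤ om L ξ ∧ (|ξ 0| + |ξ 2|) ≤ om L ξ ∧ |ξ 0| * (|ξ 0| + |ξ 2|) ≤ om L ξ ∧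
    L * |ξ 2| * (|ξ 0| + |ξ 2|) ≤ om L ξ ∧
    L * (|ξ 0| * (|ξ 1| + |ξ 2| + ξ 1 ^ 2 + ξ 2 ^ 2)) ≤ om L ξ := by
  unfold om
  rw [abs_mul, abs_mul, abs_of_pos (by linarith : 0 < L), ← sq_abs (ξ 1), ← sq_abs (ξ 2)]
  have h0 := abs_nonneg (ξ 0)
  have h1 := abs_nonneg (ξ 1)
  have h2 := abs_nonneg (ξ 2)
  generalize |ξ 0| = a at *
  generalize |ξ 1| = b at *
  generalize |ξ 2| = c at *
  have hb : b ≤ L * b := le_mul_of_one_le_left h1 hL
  have hc : c ≤ L * c := le_mul_of_one_le_left h2 hL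
  have e : L * (a * (b + c + b ^ 2 + c ^ 2)) = a * (L * b + L * c + L * b * b + L * c * c) := by
    ring
  rw [e]
  generalize L * b = B at *
  generalize L * c = C at *
  have hB : 0 ≤ B := h1.trans hb
  have hC : 0 ≤ C := h2.trans hc
  have k1 : (1 + a) ^ 2 * (1 + C) ^ 2 ≤ (1 + a) ^ 2 * (1 + B) ^ 2 * (1 + C) ^ 2 := by
    rw [mul_right_comm]; exact le_mul_of_one_le_right (by positivity) (by nlinarith)
  have k2 : (1 + a) ^ 2 * (1 + C) ^ 2 = 1 + 2 * a + 2 * C + a ^ 2 + C ^ 2 + 4 * (a * C) +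
    2 * (a * C) * (a + C) + (a * C) ^ 2 := by ring
  have k3 := mul_nonneg h0 hC
  have k4 : 0 ≤ 2 * (a * C) * (a + C) := by positivity
  have k5 := mul_le_mul_of_nonneg_left hc h0
  have k6 := mul_le_mul_of_nonneg_left hc hC
  have k7 := mul_le_mul_of_nonneg_left hb hB
  refine ⟨by nlinarith, by nlinarith, by nlinarith, by nlinarith, by nlinarith, by nlinarith, ?_⟩
  rw [mul_assoc]
  refine mul_le_mul (by nlinarith) ?_ (by positivity) (by positivity)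
  have k8 : (1 + B) ^ 2 * (1 + C) ^ 2 = 1 + 2 * B + 2 * C + B ^ 2 + C ^ 2 + (4 * (B * C) +
    2 * (B * C) * (B + C) + (B * C) ^ 2) := by ring
  have k9 : 0 ≤ 4 * (B * C) + 2 * (B * C) * (B + C) + (B * C) ^ 2 := by positivity
  nlinarith

lemma om_neg (L : ℝ) (ξ : X) : om L (-ξ) = om L ξ := by simp [om]

lemma force {L W : ℝ} (hL : 1 ≤ L) {φ : ℝ × X → ℂ} (hφ : Continuous φ)
    (hb : ∀ z : ℝ × X, om L z.2 * ‖φ z‖ ≤ W * m L z.2) :
    (∀ t j, Bd (m L) t W fun z => vec j z.2 * φ z) ∧ ∀ i z,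
      ‖B (fun j z => vec j z.2 * φ z) (fun j z => vec j z.2 * φ z) i z‖ ≤
        8 * W ^ 2 * Cm 1 ^ 3 / L * m L z.2 := by
  have hg := majm hL
  have hL0 : 0 < L := by linarith
  have hA : ∀ t j, Bd (m L) t W fun z => vec j z.2 * φ z := fun t j =>
    ⟨Continuous.measurable (by have := vec_cont j; fun_prop), fun ξ => by
      rw [norm_mul, Complex.norm_real]
      exact (mul_le_mul_of_nonneg_right ((vec_le j ξ).trans (om_facts hL ξ).2.2.2.1)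
        (norm_nonneg _)).trans (hb (t, ξ))⟩
  refine ⟨hA, fun i z => (B_le (a := 2 * W ^ 2 / L * (Cm 1 ^ 3 * m L z.2)) (fun k => ?_) i).trans
    (le_of_eq (by ring))⟩
  obtain ⟨t, ξ⟩ := z
  let ψ : X → ℂ := fun η => (φ (t, η) - conj (φ (t, -η))) / 2
  have hψ : ∀ η, om L η * ‖ψ η‖ ≤ W * m L η := fun η => by
    have h1 := hb (t, η)
    have h2 := hb (t, -η)
    have h3 := (om_facts hL η).1
    simp only [om_neg, hg.even] at h1 h2
    have h4 : ‖ψ η‖ ≤ (‖φ (t, η)‖ + ‖φ (t, -η)‖) / 2 := by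
      simp only [ψ]
      rw [norm_div, Complex.norm_two]
      gcongr
      exact (norm_sub_le _ _).trans (by rw [RCLike.norm_conj])
    nlinarith
  have hs : ∀ j η, sy (fun z => vec j z.2 * φ z) (t, η) = vec j η * ψ η := fun j η => by
    simp only [sy, ψ, vec_neg, map_mul, conj_ofReal]; push_cast; ring
  have hi := fun j => (((hA t j).sy hg).cv_int hg ((hA t k).sy hg) ξ).1
  have hW : 0 ≤ W := (hA t 0).nonneg hg
  unfold T cv
  simp_rw [← integral_const_mul]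
  rw [← integral_finsetSum _ fun j _ => (hi j).const_mul _]
  refine (norm_integral_le_of_norm_le ((hg.conv ξ).1.const_mul (2 * W ^ 2 / L))
    (Eventually.of_forall fun η => ?_)).trans ?_
  · have e : ∑ j, (ξ j : ℂ) * (sy (fun z => vec j z.2 * φ z) (t, ξ - η) *
        sy (fun z => vec k z.2 * φ z) (t, η)) =
        ((η 2 * (ξ - η) 0 - η 0 * (ξ - η) 2) * vec k η : ℝ) * (ψ (ξ - η) * ψ η) := by
      simp only [hs, Fin.sum_univ_three]
      generalize vec k η = r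
      simp [vec]; ring
    rw [e, norm_mul, norm_mul, Complex.norm_real, Real.norm_eq_abs, abs_mul]
    generalize ξ - η = ζ
    obtain ⟨-, a2, a3, -⟩ := om_facts hL ζ
    obtain ⟨-, -, -, -, b1, b2, -⟩ := om_facts hL η
    have h1 : |η 2 * ζ 0 - η 0 * ζ 2| ≤ |η 2| * |ζ 0| + |η 0| * |ζ 2| := by
      rw [← abs_mul, ← abs_mul]; exact abs_sub _ _
    have h2 : L * (|η 2 * ζ 0 - η 0 * ζ 2| * |vec k η|) ≤ 2 * (om L ζ * om L η) := by
      calc _ ≤ L * ((|η 2| * |ζ 0| + |η 0| * |ζ 2|) * (|η 0| + |η 2|)) := by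
            gcongr; exact vec_le k η
        _ = |ζ 0| * (L * |η 2| * (|η 0| + |η 2|)) + L * |ζ 2| * (|η 0| * (|η 0| + |η 2|)) := by
            ring
        _ ≤ om L ζ * om L η + om L ζ * om L η := by
            have := (abs_nonneg _).trans a3
            gcongr
        _ = _ := by ring
    have h3 : (om L ζ * ‖ψ ζ‖) * (om L η * ‖ψ η‖) ≤ (W * m L ζ) * (W * m L η) :=
      mul_le_mul (hψ ζ) (hψ η) (mul_nonneg (by linarith [(om_facts hL η).1]) (norm_nonneg _))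
        (mul_nonneg hW (hg.pos _).le)
    rw [div_mul_eq_mul_div, le_div_iff₀ hL0]
    nlinarith [mul_le_mul_of_nonneg_right h2 (mul_nonneg (norm_nonneg (ψ ζ)) (norm_nonneg (ψ η)))]
  · rw [integral_const_mul]
    exact mul_le_mul_of_nonneg_left (hg.conv ξ).2 (by positivity)

lemma dec_of {L α : ℝ} (hL : 1 ≤ L) {G : ℝ × X → ℂ} (h : ∀ t, Bd (m L) t α G) : Dec G := by
  intro k
  obtain ⟨c, -, hc⟩ := m_dec hL (k + 1)
  refine ⟨α * c, fun t => ⟨(h t).1, fun ξ => ((h t).2 ξ).trans ?_⟩⟩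
  rw [mul_assoc]
  exact mul_le_mul_of_nonneg_left (hc ξ) ((h t).nonneg (majm hL))

lemma td_of {V F : ℝ × X → ℂ} {A : X → ℂ} (hF : Continuous F)
    (h : ∀ z : ℝ × X, V z = (Real.exp (-(ct z.1 * q z.2)) : ℝ) * A z.2 - J F z) :
    TD V fun z => -(q z.2 : ℝ) * V z - F z := by
  intro t ht ξ
  have hc : Continuous fun s : ℝ => (Real.exp (s * q ξ) : ℝ) * F (s, ξ) := by fun_prop
  have e : ∀ s ∈ Ioo (0 : ℝ) 1, V (s, ξ) = (Real.exp (-(s * q ξ)) : ℝ) *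
      (A ξ - ∫ r in (0 : ℝ)..s, (Real.exp (r * q ξ) : ℝ) * F (r, ξ)) := by
    intro s hs
    rw [h, J]
    simp only [ct_of (Ioo_subset_Icc_self hs)]
    rw [mul_sub, ← intervalIntegral.integral_const_mul]
    congr 2; funext r
    rw [← mul_assoc, ← ofReal_mul, ← Real.exp_add]; congr 3; ring
  have d1 := (intervalIntegral.integral_hasDerivAt_right (hc.intervalIntegrable 0 t)
    hc.aestronglyMeasurable.stronglyMeasurableAtFilter hc.continuousAt).const_sub (A ξ)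
  have d2 := (((hasDerivAt_id t).mul_const (q ξ)).fun_neg.exp.ofReal_comp).fun_mul d1
  refine (d2.congr_of_eventuallyEq ?_).congr_deriv ?_
  · filter_upwards [isOpen_Ioo.mem_nhds ht] with s hs using e s hs
  · simp only [id]
    have e1 : ((Real.exp (-(t * q ξ)) : ℝ) : ℂ) * (Real.exp (t * q ξ) : ℝ) = 1 := by
      rw [← ofReal_mul, ← Real.exp_add]; simp
    rw [e t ht]
    simp only [ofReal_mul, ofReal_neg, ofReal_one]
    linear_combination (-F (t, ξ)) * e1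

lemma norm_le3 (w : E3) {b : ℝ} (h : ∀ i, |w i| ≤ b) : ‖w‖ ≤ 2 * b := by
  have hb := (abs_nonneg _).trans (h 0)
  refine (pow_le_pow_iff_left₀ (norm_nonneg _) (by positivity) two_ne_zero).1 ?_
  rw [EuclideanSpace.real_norm_sq_eq, Fin.sum_univ_three]
  have := fun i => sq_le_sq' (abs_le.1 (h i)).1 (abs_le.1 (h i)).2
  nlinarith [this 0, this 1, this 2]

end Pool.Agent.H.MP_2d1ae5_an
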