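import Pool.Agent.H.MP_2d1ae5_an.F

set_option autoImplicit false
open MeasureTheory Set Filter Topology Complex ComplexConjugate BoundedContinuousFunction

namespace Pool.Agent.H.MP_2d1ae5_an

open Pool.Agent.H.MP_e522c7_an (X q q_eq q_nonneg sq_le_q q_cont P p p_pos E3 dot Cm Cm_pos)

noncomputable def e2 : E3 := EuclideanSpace.single 2 1

noncomputable def γ (L y : ℝ) : ℝ := Real.pi * Real.exp (-(y ^ 2 / (4 * L ^ 2)))

lemma exp_sub_one (a b : ℝ) (ha : a ≤ 0) : ‖cexp (I * b + a) - 1‖ ≤ |b| + -a := by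
  have h1 := Real.norm_exp_I_mul_ofReal_sub_one_le (x := b)
  have h2 : ‖cexp (I * b)‖ = 1 := by rw [mul_comm]; exact norm_exp_ofReal_mul_I _
  have e : cexp (I * b + a) - 1 = cexp (I * b) * (Real.exp a - 1 : ℝ) + (cexp (I * b) - 1) := by
    rw [Complex.exp_add]; push_cast; ring
  rw [e]
  refine (norm_add_le _ _).trans ?_
  rw [norm_mul, h2, one_mul, Complex.norm_real, Real.norm_eq_abs,
    abs_of_nonpos (by linarith [Real.exp_le_one_iff.2 ha])]
  rw [Real.norm_eq_abs] at h1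
  linarith [Real.add_one_le_exp a]

lemma main_term (a : ℝ →ᵇ ℂ) {L : ℝ} (hL : 1 ≤ L) {t : ℝ} (ht : t ∈ Icc (0 : ℝ) 1) {x : E3}
    (hx : ‖x‖ ≤ 1) (y : ℝ) {A : ℝ × X → ℂ} (hd : Dec A)
    (hA : ∀ ξ, A (t, ξ) = ξ 0 * ((Real.exp (-(t * q ξ)) : ℝ) * φ0 a L ξ)) :
    ‖FT A (t, x + y • e2) - γ L y * wt a (x 0) t‖ ≤ ‖a‖ * Real.exp 7 ^ 3 / L * 64 := by
  have hL0 : 0 < L := by linarith
  have hg := majm hL
  let f : Fin 3 → ℝ → ℂ := ![fun s => (s * a s * (Real.exp (-s ^ 2) : ℝ)) *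
      cexp (I * (s * x 0 : ℝ) + (-(t * s ^ 2) : ℝ)),
    fun s => cexp (I * (0 : ℝ) * s) * (Ga L s : ℝ), fun s => cexp (I * y * s) * (Ga L s : ℝ)]
  have e1 : ∫ ξ : X, ∏ i, f i (ξ i) = γ L y * wt a (x 0) t := by
    rw [integral_fintype_prod_volume_eq_prod, Fin.prod_univ_three]
    simp only [f, Matrix.cons_val_zero, Matrix.cons_val_one, Matrix.cons_val]
    rw [Ga_int hL0, Ga_int hL0, mul_assoc, ← ofReal_mul, mul_comm]
    congr 2
    unfold γ
    have := Real.mul_self_sqrt Real.pi_pos.le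
    simp only [ne_eq, OfNat.ofNat_ne_zero, not_false_eq_true, zero_pow, zero_div, neg_zero,
      Real.exp_zero, mul_one]
    rw [← mul_assoc, this]
  have e2' : ∀ ξ : X, ∏ i, f i (ξ i) = ξ 0 * φ0 a L ξ *
      cexp (I * (ξ 0 * x 0 + y * ξ 2 : ℝ) + (-(t * ξ 0 ^ 2) : ℝ)) := by
    intro ξ
    simp only [Fin.prod_univ_three, f, Matrix.cons_val_zero, Matrix.cons_val_one, Matrix.cons_val,
      φ0, Ga, one_mul]
    push_cast
    simp only [mul_add, Complex.exp_add, mul_zero, zero_mul, Complex.exp_zero, ← mul_assoc]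
    ring
  have e3 : ∀ ξ : X, ‖∏ i, f i (ξ i)‖ ≤ |ξ 0| * ‖φ0 a L ξ‖ := by
    intro ξ
    rw [e2', norm_mul, norm_mul, Complex.norm_real, Complex.norm_exp]
    refine mul_le_of_le_one_right (by positivity) (Real.exp_le_one_iff.2 ?_)
    simp only [add_re, mul_re, I_re, ofReal_re, zero_mul, I_im, ofReal_im, mul_zero, sub_zero,
      zero_add]
    exact neg_nonpos.2 (mul_nonneg ht.1 (sq_nonneg _))
  have i1 : Integrable fun ξ : X => ∏ i, f i (ξ i) := by
    refine (hg.int.const_mul (‖a‖ * Real.exp 7 ^ 3)).mono' ?_ (Eventually.of_forall fun ξ =>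
      (e3 ξ).trans ((mul_le_mul_of_nonneg_right (om_facts hL ξ).2.2.1 (norm_nonneg _)).trans
        (φ0_le a hL0 ξ)))
    simp_rw [e2']
    have := a.continuous
    exact Continuous.aestronglyMeasurable (by unfold φ0; fun_prop)
  rw [← e1, FT, ← integral_sub (ex_int (hd.int t) _) i1]
  refine (norm_integral_le_of_norm_le (hg.int.const_mul (‖a‖ * Real.exp 7 ^ 3 / L))
    (Eventually.of_forall fun ξ => ?_)).trans ?_
  · have e4 : ex (x + y • e2) ξ * A (t, ξ) - ∏ i, f i (ξ i) = (∏ i, f i (ξ i)) *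
        (cexp (I * (ξ 1 * x 1 + ξ 2 * x 2 : ℝ) + (-(t * (ξ 1 ^ 2 + ξ 2 ^ 2)) : ℝ)) - 1) := by
      rw [mul_sub, mul_one, e2', hA, mul_assoc _ (cexp _), ← Complex.exp_add, ex, ofReal_exp]
      congr 1
      rw [show ∀ a b c d : ℂ, a * (b * (c * d)) = b * d * (a * c) by intros; ring,
        ← Complex.exp_add]
      congr 2
      simp [dot, Fin.sum_univ_three, q_eq, e2]; ring
    rw [e4, norm_mul]
    have hx' : ∀ i, |x i| ≤ 1 := fun i => (Pool.Agent.H.MP_e522c7_an.coord_le x i).trans hx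
    have h1 := exp_sub_one (-(t * (ξ 1 ^ 2 + ξ 2 ^ 2))) (ξ 1 * x 1 + ξ 2 * x 2)
      (neg_nonpos.2 (mul_nonneg ht.1 (by positivity)))
    have h2 : |ξ 1 * x 1 + ξ 2 * x 2| ≤ |ξ 1| + |ξ 2| := by
      refine (abs_add_le _ _).trans ?_
      rw [abs_mul, abs_mul]
      exact add_le_add (mul_le_of_le_one_right (abs_nonneg _) (hx' 1))
        (mul_le_of_le_one_right (abs_nonneg _) (hx' 2))
    have h3 : t * (ξ 1 ^ 2 + ξ 2 ^ 2) ≤ ξ 1 ^ 2 + ξ 2 ^ 2 :=
      mul_le_of_le_one_left (by positivity) ht.2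
    have h4 := mul_le_mul (e3 ξ) (h1.trans (show _ ≤ |ξ 1| + |ξ 2| + ξ 1 ^ 2 + ξ 2 ^ 2 by linarith))
      (norm_nonneg _) (by positivity)
    refine h4.trans ?_
    rw [div_mul_eq_mul_div, le_div_iff₀ hL0]
    have h5 := mul_le_mul_of_nonneg_right (om_facts hL ξ).2.2.2.2.2.2 (norm_nonneg (φ0 a L ξ))
    linarith [φ0_le a hL0 ξ]
  · rw [integral_const_mul]
    exact mul_le_mul_of_nonneg_left (m_integral hL) (by positivity)

theorem approx (a : ℝ →ᵇ ℂ) {η : ℝ} (hη : 0 < η) : ∃ (v : ℝ → E3 → E3) (pr : ℝ → E3 → ℝ)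
    (D L : ℝ), IsSol v pr ∧ 0 < L ∧ (∀ s ∈ Ioo (-1 : ℝ) 0, ∀ x y, ‖v s x - v s y‖ ≤ D * ‖x - y‖) ∧
      ∀ s ∈ Ioo (-1 : ℝ) 0, ∀ x : E3, ‖x‖ ≤ 1 → ∀ y : ℝ,
        ‖v s (x + y • e2) - (γ L y * (wt a (x 0) (s + 1)).re) • e2‖ ≤ η := by
  set W := ‖a‖ * Real.exp 7 ^ 3 with hW
  have hW0 : 0 ≤ W := by positivity
  set ε := min 1 (η / 256) with hε
  have hε0 : 0 < ε := by positivity
  have hC := Cm_pos 1
  set δ := ε * Real.exp (-(24 * Cm 1 ^ 3 * (W + 1)) ^ 2) / 2 with hδ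
  have hδ0 : 0 < δ := by positivity
  set L := 1 + 8 * W ^ 2 * Cm 1 ^ 3 / δ + W / ε with hLd
  have p1 : 0 ≤ 8 * W ^ 2 * Cm 1 ^ 3 / δ := by positivity
  have p2 : 0 ≤ W / ε := by positivity
  have hL : 1 ≤ L := by linarith
  have hL0 : 0 < L := by linarith
  have hL1 : 8 * W ^ 2 * Cm 1 ^ 3 / L ≤ δ := by
    rw [div_le_comm₀ hL0 hδ0]; linarith
  have hL2 : W / L ≤ ε := by
    rw [div_le_comm₀ hL0 hε0]; linarith
  have hg := majm hL
  let φ : ℝ × X → ℂ := fun z => (Real.exp (-(ct z.1 * q z.2)) : ℝ) * φ0 a L z.2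
  have φc : Continuous φ := by
    have := a.continuous
    have := q_cont
    simp only [φ]; unfold φ0; fun_prop
  have φb : ∀ z : ℝ × X, om L z.2 * ‖φ z‖ ≤ W * m L z.2 := fun z => by
    refine le_trans (mul_le_mul_of_nonneg_left ?_ (by linarith [(om_facts hL z.2).1]))
      (φ0_le a hL0 z.2)
    simp only [φ]
    rw [norm_mul, Complex.norm_real, Real.norm_of_nonneg (Real.exp_pos _).le]
    exact mul_le_of_le_one_left (norm_nonneg _) (Real.exp_le_one_iff.2
      (neg_nonpos.2 (mul_nonneg (ct_mem _).1 (q_nonneg _))))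
  obtain ⟨Ab, hF⟩ := force hL φc φb
  let A : Fin 3 → ℝ × X → ℂ := fun j z => vec j z.2 * φ z
  have Ac : ∀ j, Continuous (A j) := fun j => by
    have := vec_cont j
    simp only [A]; fun_prop
  obtain ⟨R, Rc, Rb, hR⟩ := exists_fix hg hW0 hε0 (min_le_left _ _) Ac Ab fun i z =>
    (hF i z).trans (mul_le_mul_of_nonneg_right hL1 (hg.pos _).le)
  let V : Fin 3 → ℝ × X → ℂ := fun j z => A j z + R j z
  have Vb : ∀ t j, Bd (m L) t (W + ε) (V j) := fun t j => (Ab t j).add (Rb t j)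
  have Vc : ∀ j, Continuous (V j) := fun j => (Ac j).add (Rc j)
  have Bc := B_cont hg Vc Vc Vb Vb
  obtain ⟨hS, D, hD⟩ := phys (V := V) (fun i => dec_of hL fun t => Vb t i)
    (fun i => td_of (A := fun ξ => vec i ξ * φ0 a L ξ) (Bc i) fun z => by
      change A i z + R i z = _
      rw [hR]; simp only [A, φ]; ring)
    (fun z => by
      have h1 : ∑ i, z.2 i * A i z = 0 := by simp [A, vec, Fin.sum_univ_three]; ring
      have h2 : ∑ i, z.2 i * J (B V V i) z = 0 := by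
        unfold J
        simp_rw [← intervalIntegral.integral_const_mul]
        rw [← intervalIntegral.integral_finsetSum fun i _ => Continuous.intervalIntegrable
          (by have := Bc i; fun_prop) _ _]
        simp_rw [mul_left_comm (z.2 _ : ℂ), ← Finset.mul_sum]
        have := fun s => B_div V V (s, z.2)
        simp only at this
        simp [this]
      have h3 : ∀ i, V i z = A i z - J (B V V i) z := fun i => by
        change A i z + R i z = _
        rw [hR, sub_eq_add_neg]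
      simp only [h3, mul_sub, Finset.sum_sub_distrib, h1, h2, sub_zero])
  have ht : ∀ {s}, s ∈ Ioo (-1 : ℝ) 0 → s + 1 ∈ Ioo (0 : ℝ) 1 :=
    fun hs => ⟨by linarith [hs.1], by linarith [hs.2]⟩
  refine ⟨_, _, D, L, hS, hL0, fun s hs => hD _ (ht hs), fun s hs x hx y => ?_⟩
  refine (norm_le3 _ (b := 128 * ε) fun i => ?_).trans (by linarith [min_le_right 1 (η / 256)])
  have hb : ∀ {G : ℝ × X → ℂ} {z : ℝ × E3}, (∀ ξ, ‖G (z.1, ξ)‖ ≤ ε * m L ξ) → |RF G z| ≤ 64 * ε := by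
    intro G z h
    refine (abs_re_le_norm _).trans ((FT_le (hg.int.const_mul ε) h).trans ?_)
    rw [integral_const_mul, mul_comm]
    exact mul_le_mul_of_nonneg_right (m_integral hL) hε0.le
  have hAd : ∀ i, Dec (A i) := fun i => dec_of hL fun t => Ab t i
  have b1 := hb (G := R i) (z := (s + 1, x + y • e2)) (Rb _ i).2
  rw [PiLp.sub_apply, vv_apply, RF_add (hAd i) (dec_of hL fun t => Rb t i), add_sub_right_comm]
  refine (abs_add_le _ _).trans ?_
  suffices H : |RF (A i) (s + 1, x + y • e2) - ((γ L y * (wt a (x 0) (s + 1)).re) • e2) i| ≤ 64 * ε by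
    linarith
  by_cases hi : i = 2
  · subst hi
    have := main_term a hL (Ioo_subset_Icc_self (ht hs)) hx y (hAd 2) fun ξ => by
      simp [A, φ, vec, ct_of (Ioo_subset_Icc_self (ht hs))]
    have h2 := (abs_re_le_norm _).trans this
    rw [sub_re, re_ofReal_mul] at h2
    simp only [e2, PiLp.smul_apply, PiLp.single_apply, if_true, smul_eq_mul, mul_one]
    exact h2.trans (by linarith)
  · simp only [e2, PiLp.smul_apply, PiLp.single_apply, if_neg hi, smul_zero, sub_zero]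
    refine hb fun ξ => ?_
    have h1 : |vec i ξ| ≤ |ξ 2| := by
      fin_cases i <;> simp [vec] at hi ⊢
    simp only [A]
    rw [norm_mul, Complex.norm_real]
    refine le_trans ?_ (mul_le_mul_of_nonneg_right hL2 (hg.pos ξ).le)
    rw [div_mul_eq_mul_div, le_div_iff₀ hL0]
    have h3 := mul_le_mul_of_nonneg_right ((mul_le_mul_of_nonneg_left h1 hL0.le).trans
      (om_facts hL ξ).2.1) (norm_nonneg (φ (s + 1, ξ)))
    have h4 := φb (s + 1, ξ)
    rw [Real.norm_eq_abs]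
    linarith

end Pool.Agent.H.MP_2d1ae5_an
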