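import Pool.Agent.H.MP_2d1ae5_an.G

set_option autoImplicit false
open MeasureTheory Set Filter Topology Complex ComplexConjugate BoundedContinuousFunction

namespace Pool.Agent.H.MP_2d1ae5_an

open Pool.Agent.H.MP_e522c7_an (X E3 coord_le)

noncomputable def μB : Measure E3 := volume.restrict (Metric.ball (0 : E3) 1)

instance : IsFiniteMeasure μB := isFiniteMeasure_restrict.2 measure_ball_lt_top.ne

noncomputable def κ : ℝ := (μB univ ^ (3 : ENNReal).toReal⁻¹).toReal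

lemma κ_nonneg : 0 ≤ κ := ENNReal.toReal_nonneg

lemma ae_ball : ∀ᵐ x ∂μB, ‖x‖ ≤ 1 :=
  (ae_restrict_mem measurableSet_ball).mono fun _ hx => (mem_ball_zero_iff.1 hx).le

lemma eLp_le {F G : Type} [NormedAddCommGroup F] [NormedAddCommGroup G] {f : E3 → F} {g : E3 → G}
    {η : ℝ} (hη : 0 ≤ η) (hg : AEStronglyMeasurable g μB)
    (h : ∀ x, ‖x‖ ≤ 1 → ‖f x‖ ≤ ‖g x‖ + η) :
    eLpNorm f 3 μB ≤ eLpNorm g 3 μB + ENNReal.ofReal (η * κ) := by
  refine (eLpNorm_mono_ae_real (g := (fun x => ‖g x‖) + fun _ => η)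
    (ae_ball.mono fun x hx => h x hx)).trans
    ((eLpNorm_add_le hg.norm aestronglyMeasurable_const (by norm_num)).trans ?_)
  rw [eLpNorm_norm]
  gcongr
  refine (eLpNorm_le_of_ae_bound (C := η) (Eventually.of_forall fun _ =>
    (Real.norm_of_nonneg hη).le)).trans (le_of_eq ?_)
  rw [ENNReal.ofReal_mul hη, κ, ENNReal.ofReal_toReal, mul_comm]
  exact ENNReal.rpow_ne_top_of_nonneg (by positivity) (measure_ne_top _ _)

lemma cos_small {ε : ℝ} (hε : 0 < ε) :
    ∃ M : ℕ, eLpNorm (fun x : E3 => Real.cos (x 0) ^ M) 3 μB ≤ ENNReal.ofReal ε := by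
  have h0 : ∀ᵐ x ∂μB, x 0 ≠ 0 := ae_restrict_of_ae
    ((PiLp.volume_preserving_ofLp (Fin 3)).quasiMeasurePreserving.ae
      (Measure.ae_eval_ne (μ := fun _ : Fin 3 => (volume : Measure ℝ)) 0 0))
  have hc : Continuous fun r : ℝ => ‖r‖ₑ ^ (3 : ENNReal).toReal :=
    ENNReal.continuous_rpow_const.comp continuous_enorm
  have h1 := tendsto_lintegral_of_dominated_convergence (μ := μB)
    (F := fun (M : ℕ) (x : E3) => ‖Real.cos (x 0) ^ M‖ₑ ^ (3 : ENNReal).toReal) (f := fun _ => 0)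
    (fun _ => 1) (fun M => (hc.comp (by fun_prop)).measurable)
    (fun M => Eventually.of_forall fun x => ENNReal.rpow_le_one (by
      rw [← ofReal_norm, ENNReal.ofReal_le_one, norm_pow]
      exact pow_le_one₀ (norm_nonneg _) (Real.abs_cos_le_one _)) (by positivity)) (by simp)
    (by
      filter_upwards [h0, ae_ball] with x hx h1
      have h2 := abs_le.1 ((coord_le x 0).trans h1)
      have h3 : Real.cos (x 0) < 1 := lt_of_le_of_ne (Real.cos_le_one _) fun h =>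
        hx ((Real.cos_eq_one_iff_of_lt_of_lt (by linarith [Real.pi_gt_three])
          (by linarith [Real.pi_gt_three])).1 h)
      have h4 := (hc.tendsto 0).comp (tendsto_pow_atTop_nhds_zero_of_lt_one
        (Real.cos_pos_of_le_one (abs_le.2 h2)).le h3)
      simpa [Function.comp_def] using h4)
  have h2 := ((ENNReal.continuous_rpow_const (y := 1 / (3 : ENNReal).toReal)).tendsto _).comp h1
  rw [lintegral_zero, ENNReal.zero_rpow_of_pos (by norm_num)] at h2
  obtain ⟨M, hM⟩ := (h2.eventually (Iic_mem_nhds (ENNReal.ofReal_pos.2 hε))).exists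
  exact ⟨M, by rw [eLpNorm_eq_lintegral_rpow_enorm_toReal (by norm_num) (by norm_num)]; exact hM⟩

lemma wt_cont (a : ℝ →ᵇ ℂ) : Continuous fun z : ℝ × ℝ => wt a z.2 (ct z.1) := by
  have := a.continuous
  refine continuous_of_dominated (bound := fun s => ‖a‖ * ‖s * Real.exp (-1 * s ^ 2)‖)
    (fun z => Continuous.aestronglyMeasurable (by fun_prop))
    (fun z => Eventually.of_forall fun s => ?_)
    ((integrable_mul_exp_neg_mul_sq one_pos).norm.const_mul _)
    (Eventually.of_forall fun s => by fun_prop)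
  rw [norm_mul, norm_mul, norm_mul, Complex.norm_real, Complex.norm_real, norm_mul,
    Complex.norm_exp, neg_one_mul]
  have h1 : Real.exp (I * (s * z.2 : ℝ) + (-(ct z.1 * s ^ 2) : ℝ)).re ≤ 1 := by
    refine Real.exp_le_one_iff.2 ?_
    simp only [add_re, mul_re, I_re, ofReal_re, zero_mul, I_im, ofReal_im, mul_zero, sub_zero,
      zero_add]
    exact neg_nonpos.2 (mul_nonneg (ct_mem _).1 (sq_nonneg _))
  calc _ ≤ ‖s‖ * ‖a‖ * ‖Real.exp (-s ^ 2)‖ * 1 := by gcongr; exact a.norm_coe_le_norm s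
    _ = _ := by ring

lemma wt_cont' (a : ℝ →ᵇ ℂ) {τ : ℝ} (h : τ ∈ Icc (0 : ℝ) 1) :
    Continuous fun x : E3 => (wt a (x 0) τ).re := by
  have := (wt_cont a).comp (f := fun x : E3 => (τ, x 0)) (by fun_prop)
  simp only [Function.comp_def, ct_of h] at this
  exact continuous_re.comp this

lemma step (τ0 : ℝ) (k : ℕ) : ∃ (a : ℝ →ᵇ ℂ) (τ' : ℝ), τ0 < 1 → (τ0 + 1) / 2 ≤ τ' ∧ τ' < 1 ∧
    (∀ τ ∈ Icc (0 : ℝ) 1, τ ≤ τ0 ∨ τ' ≤ τ →
      eLpNorm (fun x : E3 => (wt a (x 0) τ).re) 3 μB ≤ ENNReal.ofReal (1 / (k + 1))) ∧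
    ∀ τ ∈ Icc (0 : ℝ) 1, τ' ≤ τ → 1 / 2 ≤ (wt a 0 τ).re := by
  by_cases h1 : τ0 < 1
  swap
  · exact ⟨0, 0, fun h => absurd h h1⟩
  have hκ := κ_nonneg
  set ε : ℝ := 1 / (k + 1) with hε
  have hε0 : 0 < ε := by positivity
  set e := min (1 / 4) (ε / (4 * (κ + 1))) with he
  have he0 : 0 < e := by positivity
  have he1 : 2 * e * κ ≤ ε / 2 := by
    have := min_le_right (1 / 4) (ε / (4 * (κ + 1)))
    rw [← he, le_div_iff₀ (by positivity)] at this
    nlinarith
  obtain ⟨M, hM⟩ := cos_small (half_pos hε0)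
  obtain ⟨a, a1, a2⟩ := runge h1 M he0
  have hc := wt_cont a
  have hev : ∀ᶠ τ in 𝓝 (1 : ℝ), ∀ x ∈ Icc (-1 : ℝ) 1, ‖wt a x (ct τ) - wt a x (ct 1)‖ < e := by
    refine isCompact_Icc.eventually_forall_of_forall_eventually fun x _ => ?_
    have : Continuous fun z : ℝ × ℝ => ‖wt a z.2 (ct z.1) - wt a z.2 (ct 1)‖ :=
      (hc.sub (hc.comp (f := fun z : ℝ × ℝ => ((1 : ℝ), z.2)) (by fun_prop))).norm
    exact this.continuousAt.eventually_lt continuousAt_const (by simpa using he0)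
  obtain ⟨δ, hδ, hb⟩ := Metric.eventually_nhds_iff.1 hev
  have key : ∀ τ ∈ Icc (0 : ℝ) 1, max ((τ0 + 1) / 2) (1 - δ / 2) ≤ τ → ∀ x ∈ Icc (-1 : ℝ) 1,
      |(wt a x τ).re - Real.cos x ^ M| ≤ 2 * e := by
    intro τ hτ h x hx
    have h2 := hb (y := τ) (by
      rw [Real.dist_eq, abs_lt]; constructor <;> linarith [le_of_max_le_right h, hτ.2]) x hx
    rw [ct_of hτ, ct_of ⟨zero_le_one, le_rfl⟩] at h2
    have h3 := norm_sub_le_norm_sub_add_norm_sub (wt a x τ) (wt a x 1) (Real.cos x ^ M : ℝ)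
    have h4 := abs_re_le_norm (wt a x τ - (Real.cos x ^ M : ℝ))
    rw [sub_re, ofReal_re] at h4
    linarith [a2 x hx]
  have hx : ∀ x : E3, ‖x‖ ≤ 1 → x 0 ∈ Icc (-1 : ℝ) 1 := fun x h =>
    abs_le.1 ((coord_le x 0).trans h)
  refine ⟨a, max ((τ0 + 1) / 2) (1 - δ / 2), fun _ => ⟨le_max_left _ _,
    max_lt (by linarith) (by linarith), fun τ hτ h => ?_, fun τ hτ h => ?_⟩⟩
  · refine (eLp_le (g := fun x : E3 => Real.cos (x 0) ^ M) (η := 2 * e) (by positivity)
      (Continuous.aestronglyMeasurable (by fun_prop)) fun x h' => ?_).trans ?_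
    · rcases h with h | h
      · have := (abs_re_le_norm _).trans (a1 _ (hx x h') τ ⟨hτ.1, h⟩)
        rw [Real.norm_eq_abs]
        linarith [norm_nonneg (Real.cos (x 0) ^ M)]
      · have := key τ hτ h _ (hx x h')
        rw [Real.norm_eq_abs, Real.norm_eq_abs]
        linarith [abs_sub_abs_le_abs_sub (wt a (x 0) τ).re (Real.cos (x 0) ^ M)]
    · refine (add_le_add hM (ENNReal.ofReal_le_ofReal he1)).trans (le_of_eq ?_)
      rw [← ENNReal.ofReal_add (by positivity) (by positivity), add_halves]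
  · have := abs_le.1 (key τ hτ h 0 (by norm_num))
    rw [Real.cos_zero, one_pow] at this
    linarith [min_le_left (1 / 4) (ε / (4 * (κ + 1)))]

lemma wt_smul (a : ℝ →ᵇ ℂ) (c x τ : ℝ) : (wt ((c : ℂ) • a) x τ).re = c * (wt a x τ).re := by
  rw [← re_ofReal_mul, wt, wt, ← integral_const_mul]
  congr 2; funext s
  simp only [BoundedContinuousFunction.coe_smul, smul_eq_mul]; ring

lemma core (u : ℕ → ℝ) (hu : ∀ n, u n ∈ Icc (0 : ℝ) 1) (ht : ∀ n, u n - 1 ∈ Ioo (-1 : ℝ) 0)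
    (b : ℝ →ᵇ ℂ) (k : ℕ) (C : ℝ) (hk : 4 * (C + 1) < k)
    (h3 : ∀ n, eLpNorm (fun x : E3 => (wt b (x 0) (u n)).re) 3 μB ≤ ENNReal.ofReal (1 / (k + 1)))
    (h4 : ∀ n, k + 1 ≤ n → 1 / 2 ≤ (wt b 0 (u n)).re) :
    ∃ v pr, IsSol v pr ∧ ⨆ n, eLpNorm (v (u n - 1)) 3 μB = ENNReal.ofReal 1 ∧
      ∀ᶠ n in atTop, C < ‖v (u n - 1) 0‖ := by
  let w : ℕ → E3 → ℝ := fun n x => (wt b (x 0) (u n)).re
  have wc : ∀ n, Continuous (w n) := fun n => wt_cont' b (hu n)
  set S := ⨆ n, eLpNorm (w n) 3 μB with hS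
  have S1 : S ≤ ENNReal.ofReal (1 / (k + 1)) := iSup_le h3
  have S2 : S ≠ ⊤ := ne_top_of_le_ne_top ENNReal.ofReal_ne_top S1
  have S3 : S ≠ 0 := fun h0 => by
    have h5 : eLpNorm (w (k + 1)) 3 μB = 0 :=
      le_zero_iff.1 (h0 ▸ le_iSup (fun n => eLpNorm (w n) 3 μB) (k + 1))
    rw [eLpNorm_eq_zero_iff (wc _).aestronglyMeasurable (by norm_num)] at h5
    have h6 := Measure.eqOn_open_of_ae_eq h5 Metric.isOpen_ball (wc _).continuousOn
      continuousOn_const (Metric.mem_ball_self one_pos)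
    have h7 := h4 _ le_rfl
    simp only [w, PiLp.zero_apply, Pi.zero_apply] at h6
    linarith
  have σ0 : 0 < S.toReal := ENNReal.toReal_pos S3 S2
  have σ1 : (k + 1 : ℝ) ≤ S.toReal⁻¹ := by
    rw [le_inv_comm₀ (by positivity) σ0, ← one_div]
    exact ENNReal.toReal_le_of_le_ofReal (by positivity) S1
  have hκ := κ_nonneg
  set η := 1 / (2 * (κ + 1)) with hη
  have η0 : 0 < η := by positivity
  have η1 : η * κ ≤ 1 / 2 := by
    rw [hη, div_mul_eq_mul_div, div_le_iff₀ (by positivity)]; linarith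
  have η2 : η ≤ 1 := by rw [hη, div_le_one (by positivity)]; linarith
  obtain ⟨v, pr, D, L, hv, hL, hD, hA⟩ := approx (((S.toReal⁻¹ : ℝ) : ℂ) • b) η0
  have γ0 : ∀ y, 0 < γ L y := fun y => mul_pos Real.pi_pos (Real.exp_pos _)
  have ne2 : ‖e2‖ = 1 := by simp [e2]
  let f : ℝ → ℕ → E3 → E3 := fun y n x => v (u n - 1) (x + y • e2)
  let g : ℝ → ℕ → E3 → ℝ := fun y n => (γ L y * S.toReal⁻¹) • w n
  have hfg : ∀ y n x, ‖x‖ ≤ 1 → |‖f y n x‖ - ‖g y n x‖| ≤ η := fun y n x hx => by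
    have h5 := hA _ (ht n) x hx y
    rw [wt_smul, sub_add_cancel, ← mul_assoc] at h5
    refine le_trans (le_of_eq ?_) ((abs_norm_sub_norm_le _ _).trans h5)
    rw [norm_smul, ne2, mul_one]; rfl
  have fc : ∀ y n, Continuous (f y n) := fun y n => by
    have : Continuous (v (u n - 1)) := continuous_iff_continuousAt.2 fun x =>
      ((hv.1.continuousOn.continuousAt ((isOpen_Ioo.prod isOpen_univ).mem_nhds
        (show (u n - 1, x) ∈ _ from ⟨ht n, trivial⟩))).comp
          (f := fun x : E3 => (u n - 1, x)) (by fun_prop))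
    simp only [f]; fun_prop
  have gS : ∀ y, ⨆ n, eLpNorm (g y n) 3 μB = ENNReal.ofReal (γ L y) := fun y => by
    simp only [g, eLpNorm_const_smul]
    rw [← ENNReal.mul_iSup, ← hS, Real.enorm_of_nonneg (mul_pos (γ0 y) (inv_pos.2 σ0)).le]
    conv_lhs => rw [← ENNReal.ofReal_toReal S2]
    rw [← ENNReal.ofReal_mul (by have := γ0 y; positivity), ENNReal.toReal_ofReal σ0.le,
      inv_mul_cancel_right₀ σ0.ne']
  let H : ℝ → ENNReal := fun y => ⨆ n, eLpNorm (f y n) 3 μB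
  have H1 : ∀ y, H y ≤ ENNReal.ofReal (γ L y) + ENNReal.ofReal (η * κ) := fun y => iSup_le fun n =>
    (eLp_le η0.le (((wc n).const_smul _).aestronglyMeasurable) fun x hx => by
      linarith [(abs_le.1 (hfg y n x hx)).2]).trans (by
        rw [← gS]; exact add_le_add_left (le_iSup (fun n => eLpNorm (g y n) 3 μB) n) _)
  have H2 : ∀ y, ENNReal.ofReal (γ L y) ≤ H y + ENNReal.ofReal (η * κ) := fun y => by
    rw [← gS]
    exact iSup_le fun n => (eLp_le η0.le (fc y n).aestronglyMeasurable fun x hx => by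
      linarith [(abs_le.1 (hfg y n x hx)).1]).trans
        (add_le_add_left (le_iSup (fun n => eLpNorm (f y n) 3 μB) n) _)
  have H3 : ∀ y, H y ≠ ⊤ := fun y => ne_top_of_le_ne_top (by finiteness) (H1 y)
  have H4 : ∀ y y', (H y).toReal ≤ (H y').toReal + |D| * κ * |y - y'| := fun y y' => by
    have : H y ≤ H y' + ENNReal.ofReal (|D| * |y - y'| * κ) := iSup_le fun n =>
      (eLp_le (by positivity) (fc y' n).aestronglyMeasurable fun x _ => by
        have h5 := hD _ (ht n) (x + y • e2) (x + y' • e2)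
        rw [add_sub_add_left_eq_sub, ← sub_smul, norm_smul, ne2, mul_one, Real.norm_eq_abs] at h5
        have h6 := norm_sub_norm_le (f y n x) (f y' n x)
        have h7 := mul_le_mul_of_nonneg_right (le_abs_self D) (abs_nonneg (y - y'))
        simp only [f] at h6 ⊢
        linarith).trans (add_le_add_left (le_iSup (fun n => eLpNorm (f y' n) 3 μB) n) _)
    have h5 := ENNReal.toReal_mono (by have := H3 y'; finiteness) this
    rw [ENNReal.toReal_add (H3 _) ENNReal.ofReal_ne_top, ENNReal.toReal_ofReal (by positivity)] at h5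
    linarith
  have Hc : Continuous fun y => (H y).toReal :=
    (LipschitzWith.of_le_add_mul' (|D| * κ) fun y y' => by
      rw [Real.dist_eq]; exact H4 y y').continuous
  have H5 : ∀ y, (H y).toReal ≤ γ L y + 1 / 2 := fun y => by
    have h5 := ENNReal.toReal_mono (by finiteness) (H1 y)
    rw [ENNReal.toReal_add ENNReal.ofReal_ne_top ENNReal.ofReal_ne_top,
      ENNReal.toReal_ofReal (γ0 y).le, ENNReal.toReal_ofReal (by positivity)] at h5
    linarith
  have H6 : 1 ≤ (H 0).toReal := by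
    have h5 := ENNReal.toReal_mono (by have := H3 0; finiteness) (H2 0)
    rw [ENNReal.toReal_add (H3 _) ENNReal.ofReal_ne_top,
      ENNReal.toReal_ofReal (γ0 0).le, ENNReal.toReal_ofReal (by positivity)] at h5
    have : γ L 0 = Real.pi := by simp [γ]
    linarith [Real.pi_gt_three]
  have H7 : (H (8 * L)).toReal ≤ 1 := by
    refine (H5 _).trans ?_
    have : γ L (8 * L) = Real.pi / Real.exp 16 := by
      rw [γ, show (8 * L) ^ 2 / (4 * L ^ 2) = 16 by field_simp; norm_num, Real.exp_neg]; rfl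
    have h5 : Real.pi / Real.exp 16 ≤ 1 / 2 := by
      rw [div_le_iff₀ (Real.exp_pos _)]
      linarith [Real.add_one_le_exp 16, Real.pi_le_four]
    linarith
  obtain ⟨y, hy⟩ := intermediate_value_univ (8 * L) 0 Hc ⟨H7, H6⟩
  have hy' : (H y).toReal = 1 := hy
  refine ⟨_, _, hv.shift (y • e2), ?_, ?_⟩
  · change H y = _
    rw [← hy', ENNReal.ofReal_toReal (H3 y)]
  · filter_upwards [eventually_ge_atTop (k + 1)] with n hn
    have h5 := (abs_le.1 (hfg y n 0 (by simp))).1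
    have h6 := h4 _ hn
    have h7 : 1 / 2 * (k + 1) * (1 / 2) ≤ γ L y * S.toReal⁻¹ * (wt b 0 (u n)).re := by
      have := γ0 y
      gcongr
      linarith [H5 y]
    have h8 : γ L y * S.toReal⁻¹ * (wt b 0 (u n)).re ≤ ‖g y n 0‖ := le_abs_self _
    change C < ‖f y n 0‖
    linarith

theorem main : ∃ t : ℕ → ℝ, (∀ n, t n ∈ Ioo (-1 : ℝ) 0) ∧ Monotone t ∧ Tendsto t atTop (𝓝 0) ∧
    ∀ C : ℝ, ∃ v pr, IsSol v pr ∧ ⨆ n, eLpNorm (v (t n)) 3 μB = ENNReal.ofReal 1 ∧
      ∀ᶠ n in atTop, C < ‖v (t n) 0‖ := by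
  choose a τ' h using step
  let u : ℕ → ℝ := fun n => Nat.rec (1 / 2) (fun k x => τ' x k) n
  have u1 : ∀ n, u n < 1 := by
    intro n
    induction n with
    | zero => norm_num [u]
    | succ n ih => exact (h _ n ih).2.1
  have u2 : ∀ n, (u n + 1) / 2 ≤ u (n + 1) := fun n => (h _ n (u1 n)).1
  have um : Monotone u := monotone_nat_of_le_succ fun n => by linarith [u1 n, u2 n]
  have u0 : ∀ n, 0 < u n := fun n => lt_of_lt_of_le (by norm_num [u]) (um (Nat.zero_le n))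
  have u3 : ∀ n, -(1 / 2) ^ n ≤ u n - 1 := by
    intro n
    induction n with
    | zero => norm_num [u]
    | succ n ih => rw [pow_succ]; linarith [u2 n]
  have ht : ∀ n, u n - 1 ∈ Ioo (-1 : ℝ) 0 := fun n => ⟨by linarith [u0 n], by linarith [u1 n]⟩
  have hu : ∀ n, u n ∈ Icc (0 : ℝ) 1 := fun n => ⟨(u0 n).le, (u1 n).le⟩
  refine ⟨fun n => u n - 1, ht, fun m n h => by simpa using um h, ?_, fun C => ?_⟩
  · refine tendsto_of_tendsto_of_tendsto_of_le_of_le ?_ tendsto_const_nhds u3 fun n => (ht n).2.le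
    simpa using (tendsto_pow_atTop_nhds_zero_of_lt_one (r := (1 / 2 : ℝ)) (by norm_num)
      (by norm_num)).neg
  obtain ⟨k, hk⟩ := exists_nat_gt (4 * (C + 1))
  obtain ⟨-, -, h3, h4⟩ := h (u k) k (u1 k)
  exact core u hu ht _ k C hk (fun n => h3 _ (hu n) ((le_or_gt n k).imp (fun h => um h)
    fun h => um (Nat.succ_le_of_lt h))) fun n hn => h4 _ (hu n) (um hn)

end Pool.Agent.H.MP_2d1ae5_an
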